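import Pool.Agent.H608.Me.Prob

/-!
# Random points
-/

set_option autoImplicit false

namespace Pool.Agent.H608.Me

open MeasureTheory Set Filter Topology

/-- the windows: the choice number `j` is one of the numbers `e j a` in `[H j, 2 H j)` -/
structure Win where
  n : ℕ → ℕ
  e : ∀ j, Fin (n j + 1) → ℕ
  H : ℕ → ℕ
  H2 : ∀ j, H j ^ 2 ≤ H (j + 1)
  H0 : 3 ≤ H 0
  inj : ∀ j, Function.Injective (e j)
  lo : ∀ j a, H j ≤ e j a
  hi : ∀ j a, e j a < 2 * H j
  d : ℕ
  big : ∀ j, H j ≤ n (j + d) + 1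

namespace Win

variable (W : Win)

lemma H3 (j : ℕ) : 3 ≤ W.H j := by
  induction j with
  | zero => exact W.H0
  | succ j ih =>
    have := W.H2 j
    nlinarith

lemma Hpos (j : ℕ) : (0 : ℝ) < W.H j := by
  have := W.H3 j
  exact_mod_cast (by omega : 0 < W.H j)

lemma H_succ (j : ℕ) : 2 * W.H j ≤ W.H (j + 1) := by
  have := W.H2 j
  have := W.H3 j
  nlinarith

lemma H_mono : Monotone W.H := by
  apply monotone_nat_of_le_succ
  intro j
  have := W.H_succ j
  omega

lemma H_geo (j : ℕ) : 2 ^ j * W.H 0 ≤ W.H j := by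
  induction j with
  | zero => simp
  | succ j ih =>
    have := W.H_succ j
    rw [pow_succ]
    calc 2 ^ j * 2 * W.H 0 = 2 * (2 ^ j * W.H 0) := by ring
      _ ≤ 2 * W.H j := by omega
      _ ≤ _ := this

lemma H_two (j : ℕ) : 2 ^ (j + 1) ≤ W.H j := by
  have h1 := W.H_geo j
  have h2 := W.H0
  calc 2 ^ (j + 1) = 2 ^ j * 2 := pow_succ _ _
    _ ≤ 2 ^ j * W.H 0 := Nat.mul_le_mul_left _ (by omega)
    _ ≤ _ := h1

lemma H_pow (j b : ℕ) : W.H j ^ (2 ^ b) ≤ W.H (j + b) := by
  induction b with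
  | zero => simp
  | succ b ih =>
    calc W.H j ^ (2 ^ (b + 1)) = (W.H j ^ (2 ^ b)) ^ 2 := by rw [pow_succ, pow_mul]
      _ ≤ W.H (j + b) ^ 2 := Nat.pow_le_pow_left ih 2
      _ ≤ W.H (j + b + 1) := W.H2 _

lemma H_tendsto : Tendsto (fun j => (W.H j : ℝ)) atTop atTop := by
  have h1 : Tendsto (fun j : ℕ => (2 : ℝ) ^ j) atTop atTop := tendsto_pow_atTop_atTop_of_one_lt one_lt_two
  refine tendsto_atTop_mono (fun j => ?_) h1
  have h2 := W.H_two j
  have h3 : (2 : ℕ) ^ j ≤ W.H j := (Nat.pow_le_pow_right (by norm_num) (Nat.le_succ j)).trans h2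
  exact_mod_cast h3

lemma e_pos (j : ℕ) (a : Fin (W.n j + 1)) : 1 ≤ W.e j a := by
  have := W.H3 j
  have := W.lo j a
  omega

end Win

section

variable {V : Type*} [NormedAddCommGroup V] (W : Win) (τ : ℕ → V)

/-- the sum of the terms at the chosen places outside `T` -/
noncomputable def sh (T : Finset ℕ) (ω : Om W.n) : V := ∑' j, if j ∈ T then 0 else τ (W.e j (ω j))

variable {W} {τ} {C : ℝ} (hC : ∀ k : ℕ, 1 ≤ k → ‖τ k‖ ≤ C / k)

include hC in
lemma term_le (j : ℕ) (a : Fin (W.n j + 1)) : ‖τ (W.e j a)‖ ≤ C / W.H j := by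
  have h1 := hC _ (W.e_pos j a)
  have h0 : 0 ≤ C := by
    have := (norm_nonneg _).trans (hC 1 le_rfl)
    simpa using this
  refine h1.trans ?_
  apply div_le_div_of_nonneg_left h0 (W.Hpos j)
  exact_mod_cast W.lo j a

include hC in
lemma term_le_geo (T : Finset ℕ) (ω : Om W.n) (j : ℕ) :
    ‖(if j ∈ T then 0 else τ (W.e j (ω j)))‖ ≤ C / W.H 0 * (1 / 2) ^ j := by
  have h0 : 0 ≤ C := by
    have := (norm_nonneg _).trans (hC 1 le_rfl)
    simpa using this
  have hH0 := W.Hpos 0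
  split_ifs with h
  · rw [norm_zero]
    positivity
  · refine (term_le hC j (ω j)).trans ?_
    have h1 : (2 : ℝ) ^ j * W.H 0 ≤ W.H j := by exact_mod_cast W.H_geo j
    have h2 : C / W.H 0 * (1 / 2) ^ j = C / (2 ^ j * W.H 0) := by
      rw [one_div, inv_pow]
      field_simp
    rw [h2]
    exact div_le_div_of_nonneg_left h0 (by positivity) h1

lemma hasSum_geo (c : ℝ) : HasSum (fun j : ℕ => c * (1 / 2) ^ j) (c * 2) := hasSum_geometric_two.mul_left c

variable [CompleteSpace V]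

include hC in
lemma sh_summable (T : Finset ℕ) (ω : Om W.n) : Summable fun j => if j ∈ T then 0 else τ (W.e j (ω j)) :=
  Summable.of_norm_bounded (hasSum_geo _).summable (term_le_geo hC T ω)

include hC in
omit [CompleteSpace V] in
lemma sh_norm (T : Finset ℕ) (ω : Om W.n) : ‖sh W τ T ω‖ ≤ C / W.H 0 * 2 :=
  tsum_of_norm_bounded (hasSum_geo _) (term_le_geo hC T ω)

include hC in
lemma sh_cont (T : Finset ℕ) : Continuous (sh W τ T) := by
  apply continuous_tsum (u := fun j : ℕ => C / W.H 0 * (1 / 2) ^ j)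
  · intro j
    split_ifs
    · exact continuous_const
    · exact (continuous_of_discreteTopology (f := fun a : Fin (W.n j + 1) => τ (W.e j a))).comp (continuous_apply j)
  · exact (hasSum_geo _).summable
  · exact fun j ω => term_le_geo hC T ω j

include hC in
lemma sh_insert {T : Finset ℕ} {i : ℕ} (hi : i ∉ T) (ω : Om W.n) :
    sh W τ T ω = τ (W.e i (ω i)) + sh W τ (insert i T) ω := by
  unfold sh
  rw [(sh_summable hC T ω).tsum_eq_add_tsum_ite i, if_neg hi]
  congr 1
  refine tsum_congr fun j => ?_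
  by_cases h : j = i
  · rw [if_pos h, if_pos (by rw [h]; exact Finset.mem_insert_self _ _)]
  · rw [if_neg h]
    by_cases h2 : j ∈ T
    · rw [if_pos h2, if_pos (Finset.mem_insert_of_mem h2)]
    · rw [if_neg h2, if_neg (by rw [Finset.mem_insert]; tauto)]

omit [CompleteSpace V] in
lemma sh_update {T : Finset ℕ} {i : ℕ} (hi : i ∈ T) (ω : Om W.n) (a : Fin (W.n i + 1)) :
    sh W τ T (Function.update ω i a) = sh W τ T ω := by
  unfold sh
  refine tsum_congr fun j => ?_
  by_cases h : j = i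
  · subst h
    rw [if_pos hi, if_pos hi]
  · rw [Function.update_of_ne h]

end

end Pool.Agent.H608.Me
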