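import Pool.Agent.H608.Me.Step
import Pool.Agent.H608.Me.Pts
import Pool.Agent.H608.Ge.Mv

/-!
# Several steps
-/

set_option autoImplicit false

namespace Pool.Agent.H608.Me

open MeasureTheory Set Filter Topology Metric
open scoped ENNReal
open Pool.Agent.H608.Ge (rp)

/-- a system: numbers given by series, and analytic functions of them -/
structure MSys where
  t : ℕ
  m : ℕ
  x : Fin t → ℝ
  τ : ℕ → Fin t → ℝ
  γ : ℂ → Fin t → ℂ
  ρ : ℝ
  r : ℝ
  C : ℝ
  hρ : 0 < ρ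
  hr : 0 < r
  γ0 : γ 0 = 0
  hγ : AnalyticOnNhd ℂ γ (ball 0 ρ)
  ind : CInd γ
  rep : ∀ᶠ k : ℕ in atTop, rp (τ k) = γ (1 / (k : ℂ))
  hC : ∀ k : ℕ, 1 ≤ k → ‖rp (τ k)‖ ≤ C / k
  f : Fin m → (Fin t → ℂ) → ℂ
  hf : ∀ i, AnalyticOnNhd ℂ (f i) (ball (rp x) r)
  hfi : ∀ v : Fin m → ℂ, v ≠ 0 → ∃ w ∈ ball (rp x) r, ∑ i, v i * f i w ≠ 0

/-- the positions of the steps -/
def Pb (b : ℕ) : ℕ → ℕ → Finset ℕ
  | 0, _ => ∅
  | N + 1, i => insert i (Pb b N (i + b + 1))

lemma Pb_ge {b : ℕ} : ∀ {N i j : ℕ}, j ∈ Pb b N i → i ≤ j := by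
  intro N
  induction N with
  | zero =>
    intro i j h
    simp [Pb] at h
  | succ N ih =>
    intro i j h
    unfold Pb at h
    rw [Finset.mem_insert] at h
    rcases h with rfl | h
    · exact le_rfl
    · have := ih h
      omega

namespace MSys

variable (S : MSys) (W : Win)

/-- the point without the steps in `T` -/
noncomputable def Z (T : Finset ℕ) (ω : Om W.n) : Fin S.t → ℂ := rp S.x - sh W (fun k => rp (S.τ k)) T ω

/-- the compact set -/
def K : Set ((Fin S.m → ℂ) × (Fin S.t → ℂ)) := sphere 0 1 ×ˢ closedBall (rp S.x) (S.r / 2)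

/-- the domain -/
def U : Set ((Fin S.m → ℂ) × (Fin S.t → ℂ)) := univ ×ˢ ball (rp S.x) S.r

lemma K_compact : IsCompact S.K := (isCompact_sphere _ _).prod (isCompact_closedBall _ _)

lemma K_sub : S.K ⊆ S.U := by
  intro p hp
  refine ⟨mem_univ _, ?_⟩
  have h1 := hp.2
  rw [mem_closedBall] at h1
  rw [mem_ball]
  have := S.hr
  linarith

variable {S W}

lemma Z_cont (T : Finset ℕ) : Continuous (S.Z W T) := continuous_const.sub (sh_cont S.hC T)

lemma Z_mem (hsm : S.C / W.H 0 * 2 ≤ S.r / 2) (T : Finset ℕ) (ω : Om W.n) :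
    S.Z W T ω ∈ closedBall (rp S.x) (S.r / 2) := by
  rw [mem_closedBall_iff_norm]
  have h1 : S.Z W T ω - rp S.x = -sh W (fun k => rp (S.τ k)) T ω := by
    unfold Z
    abel
  rw [h1, norm_neg]
  exact (sh_norm S.hC T ω).trans hsm

lemma Z_step {T : Finset ℕ} {i : ℕ} (hi : i ∉ T) (ω : Om W.n) :
    S.Z W T ω = S.Z W (insert i T) ω - rp (S.τ (W.e i (ω i))) := by
  unfold Z
  rw [sh_insert S.hC hi ω]
  abel

lemma Z_update {T : Finset ℕ} {i : ℕ} (hi : i ∈ T) (ω : Om W.n) (a : Fin (W.n i + 1)) :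
    S.Z W T (Function.update ω i a) = S.Z W T ω := by
  unfold Z
  rw [sh_update hi]

lemma K_dom : ∃ δ : ℝ, 0 < δ ∧ ∀ p ∈ S.K, ∀ u ∈ closedBall (0 : ℂ) δ, (p, u) ∈ dom (jg S.γ) S.ρ S.U := by
  have h1 : ∀ᶠ u in 𝓝 (0 : ℂ), S.γ u ∈ ball (0 : Fin S.t → ℂ) (S.r / 2) := by
    have h2 : ContinuousAt S.γ 0 := (S.hγ 0 (mem_ball_self S.hρ)).continuousAt
    apply h2.eventually_mem
    rw [S.γ0]
    exact ball_mem_nhds _ (half_pos S.hr)
  obtain ⟨ε, hε, h3⟩ := Metric.eventually_nhds_iff_ball.1 h1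
  refine ⟨min ε S.ρ / 2, half_pos (lt_min hε S.hρ), fun p hp u hu => ?_⟩
  have h4 : ‖u‖ < min ε S.ρ := by
    rw [mem_closedBall_zero_iff] at hu
    have := lt_min hε S.hρ
    linarith
  refine ⟨?_, mem_univ _, ?_⟩
  · rw [mem_ball_zero_iff]
    exact h4.trans_le (min_le_right _ _)
  · show p.2 - S.γ u ∈ ball (rp S.x) S.r
    have h5 := h3 u (by rw [mem_ball_zero_iff]; exact h4.trans_le (min_le_left _ _))
    rw [mem_ball_zero_iff] at h5
    have h6 := hp.2
    rw [mem_closedBall_iff_norm] at h6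
    rw [mem_ball_iff_norm]
    calc ‖p.2 - S.γ u - rp S.x‖ = ‖(p.2 - rp S.x) - S.γ u‖ := by
          congr 1
          abel
      _ ≤ ‖p.2 - rp S.x‖ + ‖S.γ u‖ := norm_sub_le _ _
      _ < S.r := by linarith

lemma Lk_cont (κ : List ℕ) : ContinuousOn (Lk (jg S.γ) κ (jf S.f)) S.U :=
  (Lk_analytic S.hρ (jg_zero S.γ0) (jg_analytic S.hγ) (jf_analytic S.hf) κ).continuousOn

lemma comp_cont (hsm : S.C / W.H 0 * 2 ≤ S.r / 2) (κ : List ℕ) {v : Fin S.m → ℂ} (hv : v ∈ sphere (0 : Fin S.m → ℂ) 1)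
    (T : Finset ℕ) : Continuous fun ω => ‖Lk (jg S.γ) κ (jf S.f) (v, S.Z W T ω)‖ := by
  have h1 : Continuous fun ω => Lk (jg S.γ) κ (jf S.f) (v, S.Z W T ω) :=
    (Lk_cont κ).comp_continuous (continuous_const.prodMk (Z_cont T)) fun ω => S.K_sub ⟨hv, Z_mem hsm T ω⟩
  exact h1.norm

open Classical in
theorem chain (hsm : S.C / W.H 0 * 2 ≤ S.r / 2) (b : ℕ) : ∀ κ : List ℕ, (∀ m ∈ κ, 2 * m + 2 ≤ 2 ^ b) →
    ∃ i₀ : ℕ, W.d + 1 ≤ i₀ ∧ ∀ i ≥ i₀, ∀ v ∈ sphere (0 : Fin S.m → ℂ) 1,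
      mu W.n {ω | 1 / (W.H (i - 1) : ℝ) ≤ ‖Lk (jg S.γ) κ (jf S.f) (v, S.Z W (Pb b κ.length i) ω)‖ ∧
        ‖jf S.f (v, S.Z W ∅ ω)‖ < 1 / (W.H (i + (b + 1) * κ.length - 1) : ℝ)} ≤
        (κ.sum : ℝ≥0∞) / (W.H (i - W.d) : ℝ≥0∞) := by
  intro κ
  induction κ with
  | nil =>
    intro _
    refine ⟨W.d + 1, le_rfl, fun i hi v hv => ?_⟩
    have h1 : {ω | 1 / (W.H (i - 1) : ℝ) ≤ ‖Lk (jg S.γ) [] (jf S.f) (v, S.Z W (Pb b ([] : List ℕ).length i) ω)‖ ∧
        ‖jf S.f (v, S.Z W ∅ ω)‖ < 1 / (W.H (i + (b + 1) * ([] : List ℕ).length - 1) : ℝ)} = ∅ := by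
      ext ω
      simp only [mem_ofPred_eq, mem_empty_iff_false, iff_false, not_and, not_lt]
      intro h
      exact h
    rw [h1, measure_empty]
    exact bot_le
  | cons m κ ih =>
    intro hb
    obtain ⟨i₁, hi₁, hmain⟩ := ih fun m' hm' => hb m' (List.mem_cons_of_mem _ hm')
    obtain ⟨δ, hδ, hKδ⟩ := K_dom (S := S)
    obtain ⟨D, hD1, hstep⟩ := step (jg_analytic S.hγ)
      (Lk_analytic S.hρ (jg_zero S.γ0) (jg_analytic S.hγ) (jf_analytic S.hf) κ) S.K_compact hδ hKδ m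
    obtain ⟨k₀, hk₀⟩ := eventually_atTop.1 S.rep
    obtain ⟨j₁, hj₁⟩ := eventually_atTop.1 ((W.H_tendsto.eventually_ge_atTop D).and
      (W.H_tendsto.eventually_ge_atTop (k₀ : ℝ)))
    refine ⟨max i₁ (max (j₁ + 1) (W.d + 1)), by omega, fun i hi v hv => ?_⟩
    have hii₁ : i₁ ≤ i := by omega
    have hij₁ : j₁ ≤ i - 1 := by omega
    have hid : W.d + 1 ≤ i := by omega
    obtain ⟨P', hP'⟩ : ∃ P', P' = Pb b κ.length (i + b + 1) := ⟨_, rfl⟩
    have hPi : Pb b (m :: κ).length i = insert i P' := by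
      rw [hP']
      rfl
    have hiP' : i ∉ P' := by
      intro h
      rw [hP'] at h
      have := Pb_ge h
      omega
    obtain ⟨F₁, hF₁⟩ : ∃ F₁ : Set (Om W.n), F₁ = {ω | 1 / (W.H (i - 1) : ℝ) ≤
        ‖Lk (jg S.γ) (m :: κ) (jf S.f) (v, S.Z W (insert i P') ω)‖ ∧
        ‖Lk (jg S.γ) κ (jf S.f) (v, S.Z W P' ω)‖ < 1 / (W.H (i + b) : ℝ)} := ⟨_, rfl⟩
    obtain ⟨F₂, hF₂⟩ : ∃ F₂ : Set (Om W.n), F₂ = {ω | 1 / (W.H (i + b + 1 - 1) : ℝ) ≤
        ‖Lk (jg S.γ) κ (jf S.f) (v, S.Z W (Pb b κ.length (i + b + 1)) ω)‖ ∧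
        ‖jf S.f (v, S.Z W ∅ ω)‖ < 1 / (W.H (i + b + 1 + (b + 1) * κ.length - 1) : ℝ)} := ⟨_, rfl⟩
    have hsub : {ω | 1 / (W.H (i - 1) : ℝ) ≤ ‖Lk (jg S.γ) (m :: κ) (jf S.f) (v, S.Z W (Pb b (m :: κ).length i) ω)‖ ∧
        ‖jf S.f (v, S.Z W ∅ ω)‖ < 1 / (W.H (i + (b + 1) * (m :: κ).length - 1) : ℝ)} ⊆ F₁ ∪ F₂ := by
      rintro ω ⟨h1, h2⟩
      rw [hPi] at h1
      by_cases h3 : ‖Lk (jg S.γ) κ (jf S.f) (v, S.Z W P' ω)‖ < 1 / (W.H (i + b) : ℝ)
      · left
        rw [hF₁]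
        exact ⟨h1, h3⟩
      · right
        rw [hF₂]
        push Not at h3
        refine ⟨?_, ?_⟩
        · rw [← hP']
          exact h3
        · have h4 : i + b + 1 + (b + 1) * κ.length - 1 = i + (b + 1) * (m :: κ).length - 1 := by
            rw [List.length_cons]
            ring_nf
          rw [h4]
          exact h2
    -- the first part
    have hm1 : mu W.n F₁ ≤ (m : ℝ≥0∞) / ((W.n i + 1 : ℕ) : ℝ≥0∞) := by
      apply resample
      · rw [hF₁]
        apply MeasurableSet.inter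
        · exact (isClosed_le continuous_const (comp_cont hsm (m :: κ) hv _)).measurableSet
        · exact (isOpen_lt (comp_cont hsm κ hv _) continuous_const).measurableSet
      · intro ω A hA
        rcases A.eq_empty_or_nonempty with h0 | ⟨a₀, ha₀⟩
        · rw [h0]
          exact Nat.zero_le _
        have hp : ((v, S.Z W (insert i P') ω) : (Fin S.m → ℂ) × (Fin S.t → ℂ)) ∈ S.K := ⟨hv, Z_mem hsm _ _⟩
        have hH1 := W.Hpos (i - 1)
        have hHi := W.Hpos i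
        have hi1 : i - 1 + 1 = i := by omega
        have hsq : (W.H (i - 1) : ℝ) ^ 2 ≤ W.H i := by
          have := W.H2 (i - 1)
          rw [hi1] at this
          exact_mod_cast this
        have hDH : D ≤ W.H (i - 1) := (hj₁ _ hij₁).1
        have hle : (W.H (i - 1) : ℝ) ≤ W.H i := by
          have := W.H_mono (Nat.sub_le i 1)
          exact_mod_cast this
        have hq1 : 1 / (W.H (i - 1) : ℝ) ≤ 1 := by
          rw [div_le_one hH1]
          exact hD1.trans hDH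
        have hDq : D ≤ 1 / (W.H (i - 1) : ℝ) * W.H i := by
          rw [one_div_mul_eq_div, le_div_iff₀ hH1]
          nlinarith
        have hcard : (A.image (W.e i)).card = A.card := Finset.card_image_of_injective _ (W.inj i)
        rw [← hcard]
        refine hstep _ hp (W.H i) (1 / (W.H (i - 1) : ℝ)) (by positivity) hq1 hDq ?_ _ ?_
        · have h1 := hA a₀ ha₀
          rw [hF₁] at h1
          have h2 := h1.1
          rw [Z_update (Finset.mem_insert_self _ _)] at h2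
          exact h2
        · intro k hk
          obtain ⟨a, ha, rfl⟩ := Finset.mem_image.1 hk
          refine ⟨W.lo i a, W.hi i a, ?_⟩
          have h1 := hA a ha
          rw [hF₁] at h1
          have h2 := h1.2
          rw [Z_step hiP', Z_update (Finset.mem_insert_self _ _), Function.update_self] at h2
          have hrep : rp (S.τ (W.e i a)) = S.γ (1 / (W.e i a : ℂ)) := by
            apply hk₀
            have h3 := (hj₁ _ hij₁).2
            have h4 : k₀ ≤ W.H (i - 1) := by exact_mod_cast h3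
            have h5 : W.H (i - 1) ≤ W.H i := by exact_mod_cast hle
            have := W.lo i a
            omega
          have hpt : ((v, S.Z W (insert i P') ω) : (Fin S.m → ℂ) × (Fin S.t → ℂ)) - jg S.γ (1 / (W.e i a : ℂ)) =
              (v, S.Z W (insert i P') ω - rp (S.τ (W.e i a))) := by
            rw [hrep]
            unfold jg
            rw [Prod.mk_sub_mk, sub_zero]
          rw [hpt]
          obtain ⟨y, hy⟩ : ∃ y, y = ‖Lk (jg S.γ) κ (jf S.f) (v, S.Z W (insert i P') ω - rp (S.τ (W.e i a)))‖ := ⟨_, rfl⟩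
          rw [← hy] at h2 ⊢
          have hy0 : 0 ≤ y := by
            rw [hy]
            exact norm_nonneg _
          have hHb := W.Hpos (i + b)
          have hpow : (W.H i : ℝ) ^ (2 * m + 2) ≤ W.H (i + b) := by
            have h3 := W.H_pow i b
            have h4 : W.H i ^ (2 * m + 2) ≤ W.H i ^ (2 ^ b) := by
              apply Nat.pow_le_pow_right (by have := W.H3 i; omega)
              exact hb m List.mem_cons_self
            exact_mod_cast h4.trans h3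
          have hDm : D * (W.H i : ℝ) ^ (2 * m) * W.H (i - 1) ≤ W.H (i + b) := by
            refine le_trans ?_ hpow
            have e1 : (W.H i : ℝ) ^ (2 * m + 2) = W.H i * (W.H i : ℝ) ^ (2 * m) * W.H i := by ring
            rw [e1]
            have h5 : D ≤ W.H i := hDH.trans hle
            gcongr
          rw [lt_div_iff₀ hHb] at h2
          rw [lt_div_iff₀ hH1]
          calc D * (W.H i : ℝ) ^ (2 * m) * y * W.H (i - 1) = (D * (W.H i : ℝ) ^ (2 * m) * W.H (i - 1)) * y := by ring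
            _ ≤ W.H (i + b) * y := mul_le_mul_of_nonneg_right hDm hy0
            _ = y * W.H (i + b) := mul_comm _ _
            _ < 1 := h2
    have hm2 : mu W.n F₁ ≤ (m : ℝ≥0∞) / (W.H (i - W.d) : ℝ≥0∞) := by
      refine hm1.trans (ENNReal.div_le_div_left ?_ _)
      have h1 := W.big (i - W.d)
      rw [Nat.sub_add_cancel (by omega)] at h1
      exact_mod_cast h1
    have hm3 : mu W.n F₂ ≤ (κ.sum : ℝ≥0∞) / (W.H (i - W.d) : ℝ≥0∞) := by
      rw [hF₂]
      refine (hmain (i + b + 1) (by omega) v hv).trans (ENNReal.div_le_div_left ?_ _)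
      exact_mod_cast W.H_mono (by omega)
    refine (measure_mono hsub).trans ((measure_union_le _ _).trans ?_)
    rw [List.sum_cons, Nat.cast_add, ENNReal.add_div]
    exact add_le_add hm2 hm3

end MSys

end Pool.Agent.H608.Me
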