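import Pool.Agent.H608.Me.SerMea

/-!
# Polynomials in exponential functions
-/

set_option autoImplicit false

namespace Pool.Agent.H608.Me

open Filter Topology Metric
open Pool.Agent.H608.Ge

variable (t d : ℕ)

/-- independence of the monomials away from the coordinate hyperplanes -/
lemma mono_ind' (v : Fin (expo t d).card → ℂ) (hv : v ≠ 0) : ∃ w, (∀ j, w j ≠ 0) ∧ ∑ i, v i * mono t d i w ≠ 0 := by
  obtain ⟨w₀, hw₀⟩ := mono_ind t d v hv
  obtain ⟨P, hP⟩ : ∃ P : MvPolynomial (Fin t) ℂ, P = ∑ i, MvPolynomial.monomial (num t d i : Fin t →₀ ℕ) (v i) := ⟨_, rfl⟩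
  have hPe : ∀ w, MvPolynomial.eval w P = ∑ i, v i * mono t d i w := by
    intro w
    rw [hP, map_sum]
    refine Finset.sum_congr rfl fun i _ => ?_
    rw [MvPolynomial.eval_monomial, Finsupp.prod_fintype _ _ (fun j => pow_zero _)]
    rfl
  have hP0 : P ≠ 0 := by
    intro h0
    apply hw₀
    rw [← hPe, h0, map_zero]
  have hQ : P * ∏ j, MvPolynomial.X j ≠ 0 := by
    apply mul_ne_zero hP0
    rw [Finset.prod_ne_zero_iff]
    intro j _
    exact MvPolynomial.X_ne_zero j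
  obtain ⟨w, hw⟩ : ∃ w, MvPolynomial.eval w (P * ∏ j, MvPolynomial.X j) ≠ 0 := by
    by_contra hcon
    push Not at hcon
    apply hQ
    apply MvPolynomial.funext
    intro w
    rw [hcon, map_zero]
  rw [map_mul, map_prod] at hw
  simp only [MvPolynomial.eval_X] at hw
  refine ⟨w, fun j => ?_, ?_⟩
  · exact Finset.prod_ne_zero_iff.1 (right_ne_zero_of_mul hw) j (Finset.mem_univ j)
  · rw [← hPe]
    exact left_ne_zero_of_mul hw

/-- polynomials in exponential functions -/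
noncomputable def expE : Ent where
  t := t
  m := (expo t d).card
  f := fun i w => mono t d i fun j => Complex.exp (w j)
  hf := by
    intro i
    have h1 : AnalyticOnNhd ℂ (fun w : Fin t → ℂ => fun j : Fin t => Complex.exp (w j)) Set.univ := by
      apply AnalyticOnNhd.pi
      intro j
      exact ((ContinuousLinearMap.proj (R := ℂ) (φ := fun _ : Fin t => ℂ) j).analyticOnNhd _).cexp
    exact (mono_analytic t d i).comp h1 fun _ _ => Set.mem_univ _
  hfi := by
    intro v hv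
    obtain ⟨w, hw0, hw⟩ := mono_ind' t d v hv
    refine ⟨fun j => Complex.log (w j), ?_⟩
    have h1 : (fun j => Complex.exp (Complex.log (w j))) = w := funext fun j => Complex.exp_log (hw0 j)
    rw [h1]
    exact hw

open Classical in
/-- the measure of algebraic independence, for the exponentials of the numbers -/
theorem expMea (o : ℕ → Ser) (ho : ∀ t, LinInd fun j : Fin t => o j) {A : Set ℕ} (hA : PolyDense A)
    {ε : ℝ} (hε : 0 < ε) (M : ℕ) :
    ∃ (E : Set ℕ) (z : ℕ → ℝ), E.Infinite ∧ (∀ k ∈ E, k ∈ A ∧ M ≤ k ∧ 1 ≤ k) ∧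
      (∀ K : ℕ, 16 ≤ K → (({k : ℕ | k ∈ E ∧ k ≤ K}.ncard : ℕ) : ℝ) ≤ ε * Real.log (Real.log K)) ∧
      (∀ j, Tendsto (fun N : ℕ => (o j).x - ∑ k ∈ (Finset.range N).filter (· ∈ E), (o j).τ k) atTop (𝓝 (z j))) ∧
      (∀ t d : ℕ, ∃ c : ℝ, 0 < c ∧ ∀ h : ℕ, 2 ≤ h → ∀ P : MvPolynomial (Fin t) ℤ, P ≠ 0 → P.totalDegree ≤ d →
        (∀ α, |P.coeff α| ≤ h) → (h : ℝ) ^ (-c) ≤ |MvPolynomial.aeval (fun i : Fin t => z i) P|) ∧
      ∀ t d : ℕ, ∃ c : ℝ, 0 < c ∧ ∀ h : ℕ, 2 ≤ h → ∀ P : MvPolynomial (Fin t) ℤ, P ≠ 0 → P.totalDegree ≤ d →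
        (∀ α, |P.coeff α| ≤ h) → (h : ℝ) ^ (-c) ≤ |MvPolynomial.aeval (fun i : Fin t => Real.exp (z i)) P| := by
  obtain ⟨E, z, h1, h2, h3, h4, h5, h6⟩ := serMea o ho (fun n => expE n.unpair.1 n.unpair.2) hA hε M
  refine ⟨E, z, h1, h2, h3, h4, h5, fun t d => ?_⟩
  obtain ⟨c, hc, hcb⟩ := h6 (Nat.pair t d)
  rw [Nat.unpair_pair] at hcb
  refine ⟨c, hc, fun h hh P hP hPd hPh => ?_⟩
  have h7 := hcb h hh (fun i => P.coeff (num t d i : Fin t →₀ ℕ)) (by
    intro h0
    apply hP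
    rw [← MvPolynomial.support_eq_empty, Finset.eq_empty_iff_forall_notMem]
    intro α hα
    have h6 := congrFun h0 ((num t d).symm ⟨α, support_sub hPd hα⟩)
    simp only [Equiv.apply_symm_apply] at h6
    exact MvPolynomial.mem_support_iff.1 hα h6) (fun i => hPh _)
  have h8 := eval_mono hPd (fun i : Fin t => Real.exp (z i))
  have h9 : rp (fun i : Fin t => Real.exp (z i)) = fun j => Complex.exp ((rp fun i : Fin t => z i) j) := by
    funext j
    unfold rp
    push_cast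
    rfl
  have h10 : ‖∑ i, ((P.coeff (num t d i : Fin t →₀ ℕ) : ℤ) : ℂ) * mono t d i
      (rp fun i : Fin t => Real.exp (z i))‖ = |MvPolynomial.aeval (fun i : Fin t => Real.exp (z i)) P| := by
    rw [h8, Complex.norm_real, Real.norm_eq_abs]
  rw [← h10, h9]
  exact h7

end Pool.Agent.H608.Me
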