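import Pool.Agent.H608.Me.Chain

/-!
# Good choices for countably many systems
-/

set_option autoImplicit false

namespace Pool.Agent.H608.Me

open MeasureTheory Set Filter Topology Metric
open scoped ENNReal
open Pool.Agent.H608.Ge (rp)

namespace MSys

variable {S : MSys} {W : Win}

open Classical in
theorem small (hsm : S.C / W.H 0 * 2 ≤ S.r / 2) : ∃ a i₀ c : ℕ, W.d + 1 ≤ i₀ ∧ ∀ i ≥ i₀,
    ∀ v ∈ sphere (0 : Fin S.m → ℂ) 1,
      mu W.n {ω | ‖jf S.f (v, S.Z W ∅ ω)‖ < 1 / (W.H (i + a) : ℝ)} ≤ (c : ℝ≥0∞) / (W.H (i - W.d) : ℝ≥0∞) := by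
  obtain ⟨N, T, c, hT, hc, hTc⟩ := exists_unif S.hρ (jg_zero S.γ0) (jg_analytic S.hγ) (jf_analytic S.hf) S.K_compact
    S.K_sub (fun p hp => by
      obtain ⟨κ, hκ⟩ := nondeg (v := p.1) (y := p.2) S.hρ S.γ0 S.hγ S.ind S.hf S.hfi (by
        intro h0
        have h1 := hp.1
        rw [h0, mem_sphere_zero_iff_norm, norm_zero] at h1
        exact zero_ne_one h1) (S.K_sub hp).2
      exact ⟨κ, hκ⟩)
  obtain ⟨B, hB⟩ : ∃ B, B = T.sup List.sum := ⟨_, rfl⟩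
  obtain ⟨b, hb⟩ : ∃ b, b = 2 * B + 2 := ⟨_, rfl⟩
  have hbκ : ∀ κ ∈ T, ∀ m ∈ κ, 2 * m + 2 ≤ 2 ^ b := by
    intro κ hκ m hm
    have h1 : m ≤ κ.sum := List.single_le_sum (fun _ _ => Nat.zero_le _) m hm
    have h2 : κ.sum ≤ B := by
      rw [hB]
      exact Finset.le_sup (f := List.sum) hκ
    have h3 : b < 2 ^ b := Nat.lt_two_pow_self
    omega
  have hch := fun κ (hκ : κ ∈ T) => chain hsm b κ (hbκ κ hκ)
  choose! i₁ hi₁ hch using hch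
  obtain ⟨j₁, hj₁⟩ := eventually_atTop.1 (W.H_tendsto.eventually_ge_atTop (1 / c))
  refine ⟨(b + 1) * N, max (T.sup i₁) (max (j₁ + 1) (W.d + 1)), ∑ κ ∈ T, κ.sum, by omega, fun i hi v hv => ?_⟩
  have hsub : {ω | ‖jf S.f (v, S.Z W ∅ ω)‖ < 1 / (W.H (i + (b + 1) * N) : ℝ)} ⊆
      ⋃ κ ∈ T, {ω | 1 / (W.H (i - 1) : ℝ) ≤ ‖Lk (jg S.γ) κ (jf S.f) (v, S.Z W (Pb b κ.length i) ω)‖ ∧
        ‖jf S.f (v, S.Z W ∅ ω)‖ < 1 / (W.H (i + (b + 1) * κ.length - 1) : ℝ)} := by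
    intro ω hω
    rw [mem_ofPred_eq] at hω
    obtain ⟨κ, hκ, hκc⟩ := hTc (v, S.Z W (Pb b N i) ω) ⟨hv, Z_mem hsm _ _⟩
    rw [mem_iUnion₂]
    refine ⟨κ, hκ, ?_, ?_⟩
    · rw [hT κ hκ]
      refine le_trans ?_ hκc
      have h1 := hj₁ (i - 1) (by omega)
      rw [div_le_iff₀ hc] at h1
      rw [div_le_iff₀ (W.Hpos _)]
      linarith
    · refine hω.trans_le ?_
      rw [hT κ hκ]
      apply one_div_le_one_div_of_le (W.Hpos _)
      exact_mod_cast W.H_mono (Nat.sub_le _ _)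
  refine (measure_mono hsub).trans ((measure_biUnion_finset_le _ _).trans ?_)
  have h2 : ∀ κ ∈ T, mu W.n {ω | 1 / (W.H (i - 1) : ℝ) ≤ ‖Lk (jg S.γ) κ (jf S.f) (v, S.Z W (Pb b κ.length i) ω)‖ ∧
        ‖jf S.f (v, S.Z W ∅ ω)‖ < 1 / (W.H (i + (b + 1) * κ.length - 1) : ℝ)} ≤
        (κ.sum : ℝ≥0∞) / (W.H (i - W.d) : ℝ≥0∞) := by
    intro κ hκ
    apply hch κ hκ i _ v hv
    have : i₁ κ ≤ T.sup i₁ := Finset.le_sup hκ
    omega
  refine (Finset.sum_le_sum h2).trans ?_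
  simp only [div_eq_mul_inv]
  rw [← Finset.sum_mul]
  push_cast
  exact le_rfl

/-- integer vectors with small value -/
def Bad (S : MSys) (W : Win) (a i : ℕ) : Set (Om W.n) :=
  {ω | ∃ v : Fin S.m → ℤ, v ≠ 0 ∧ (∀ j, |v j| ≤ W.H i) ∧ ‖∑ j, (v j : ℂ) * S.f j (S.Z W ∅ ω)‖ < 1 / (W.H (i + a) : ℝ)}

open Classical in
theorem union (hsm : S.C / W.H 0 * 2 ≤ S.r / 2) : ∃ a i₀ : ℕ, ∀ i ≥ i₀,
    mu W.n (Bad S W a i) ≤ 1 / (W.H i : ℝ≥0∞) := by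
  obtain ⟨a, i₀, c, hi₀, hmain⟩ := small (S := S) (W := W) hsm
  obtain ⟨β, hβ⟩ : ∃ β, β = 2 * S.m + 2 := ⟨_, rfl⟩
  obtain ⟨j₁, hj₁⟩ := eventually_atTop.1 (W.H_tendsto.eventually_ge_atTop (c : ℝ))
  refine ⟨W.d + β + a, max i₀ j₁, fun i hi => ?_⟩
  have hcH : c ≤ W.H i := by exact_mod_cast hj₁ i (by omega)
  obtain ⟨X, hX⟩ : ∃ X : Finset (Fin S.m → ℤ), X = (Fintype.piFinset fun _ : Fin S.m =>
    Finset.Icc (-(W.H i : ℤ)) (W.H i)).filter (· ≠ 0) := ⟨_, rfl⟩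
  have hXc : X.card ≤ (2 * W.H i + 1) ^ S.m := by
    rw [hX]
    refine (Finset.card_filter_le _ _).trans ?_
    rw [Fintype.card_piFinset_const, Int.card_Icc]
    apply le_of_eq
    congr 1
    omega
  have hsub : Bad S W (W.d + β + a) i ⊆ ⋃ v ∈ X, {ω | ‖jf S.f ((((1 / ‖(fun j => (v j : ℂ))‖ : ℝ) : ℂ) • fun j => (v j : ℂ)),
      S.Z W ∅ ω)‖ < 1 / (W.H (i + (W.d + β) + a) : ℝ)} := by
    rintro ω ⟨v, hv0, hvH, hv⟩
    rw [mem_iUnion₂]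
    refine ⟨v, ?_, ?_⟩
    · rw [hX, Finset.mem_filter, Fintype.mem_piFinset]
      refine ⟨fun j => ?_, hv0⟩
      rw [Finset.mem_Icc]
      exact abs_le.1 (hvH j)
    · rw [mem_ofPred_eq]
      have hn1 : (1 : ℝ) ≤ ‖(fun j => (v j : ℂ))‖ := by
        obtain ⟨j, hj⟩ := Function.ne_iff.1 hv0
        refine le_trans ?_ (norm_le_pi_norm (fun j => (v j : ℂ)) j)
        rw [Complex.norm_intCast]
        have h1 := Int.one_le_abs hj
        exact_mod_cast h1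
      have h2 : jf S.f ((((1 / ‖(fun j => (v j : ℂ))‖ : ℝ) : ℂ) • fun j => (v j : ℂ)), S.Z W ∅ ω) =
          ((1 / ‖(fun j => (v j : ℂ))‖ : ℝ) : ℂ) * ∑ j, (v j : ℂ) * S.f j (S.Z W ∅ ω) := by
        unfold jf
        rw [Finset.mul_sum]
        refine Finset.sum_congr rfl fun j _ => ?_
        simp only [Pi.smul_apply, smul_eq_mul]
        ring
      rw [h2, norm_mul, Complex.norm_real, Real.norm_of_nonneg (by positivity)]
      have h3 : 1 / ‖(fun j => (v j : ℂ))‖ ≤ 1 := by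
        rw [div_le_one (by linarith)]
        exact hn1
      have e1 : i + (W.d + β) + a = i + (W.d + β + a) := by ring
      rw [e1]
      exact (mul_le_of_le_one_left (norm_nonneg _) h3).trans_lt hv
  refine (measure_mono hsub).trans ((measure_biUnion_finset_le _ _).trans ?_)
  have h4 : ∀ v ∈ X, mu W.n {ω | ‖jf S.f ((((1 / ‖(fun j => (v j : ℂ))‖ : ℝ) : ℂ) • fun j => (v j : ℂ)),
      S.Z W ∅ ω)‖ < 1 / (W.H (i + (W.d + β) + a) : ℝ)} ≤ (c : ℝ≥0∞) / (W.H (i + β) : ℝ≥0∞) := by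
    intro v hv
    have h5 := hmain (i + (W.d + β)) (by omega) ((((1 / ‖(fun j => (v j : ℂ))‖ : ℝ) : ℂ) • fun j => (v j : ℂ))) (by
      rw [mem_sphere_zero_iff_norm, norm_smul, Complex.norm_real, Real.norm_of_nonneg (by positivity)]
      rw [one_div_mul_cancel]
      rw [hX, Finset.mem_filter] at hv
      intro h0
      apply hv.2
      funext j
      have h6 : (v j : ℂ) = 0 := congrFun (norm_eq_zero.1 h0) j
      exact_mod_cast h6)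
    have e1 : i + (W.d + β) - W.d = i + β := by omega
    rw [e1] at h5
    exact h5
  refine (Finset.sum_le_sum h4).trans ?_
  rw [Finset.sum_const, nsmul_eq_mul]
  -- the numbers
  have hH3 := W.H3 i
  have h7 : X.card * c * W.H i ≤ W.H (i + β) := by
    have h8 : (2 * W.H i + 1) ^ S.m ≤ W.H i ^ (2 * S.m) := by
      rw [pow_mul]
      apply Nat.pow_le_pow_left
      nlinarith
    calc X.card * c * W.H i ≤ W.H i ^ (2 * S.m) * W.H i * W.H i := by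
          apply Nat.mul_le_mul_right
          exact Nat.mul_le_mul (hXc.trans h8) hcH
      _ = W.H i ^ β := by rw [hβ]; ring
      _ ≤ W.H i ^ (2 ^ β) := Nat.pow_le_pow_right (by omega) (Nat.lt_two_pow_self).le
      _ ≤ W.H (i + β) := W.H_pow i β
  have hHi0 : (W.H i : ℝ≥0∞) ≠ 0 := by exact_mod_cast (by omega : W.H i ≠ 0)
  have hHb0 : (W.H (i + β) : ℝ≥0∞) ≠ 0 := by exact_mod_cast (by have := W.H3 (i + β); omega : W.H (i + β) ≠ 0)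
  rw [ENNReal.le_div_iff_mul_le (Or.inl hHi0) (Or.inl (ENNReal.natCast_ne_top _)), ← mul_div_assoc, div_eq_mul_inv,
    mul_right_comm, ← div_eq_mul_inv]
  apply ENNReal.div_le_of_le_mul
  rw [one_mul]
  exact_mod_cast h7

end MSys

open Classical in
theorem exists_good (S : ℕ → MSys) (W : Win) (hsm : ∀ s, (S s).C / W.H 0 * 2 ≤ (S s).r / 2) :
    ∃ ω : Om W.n, ∀ s, ∃ a i₀ : ℕ, ∀ i ≥ i₀, ω ∉ (S s).Bad W a i := by
  choose a i₀ hmain using fun s => MSys.union (S := S s) (W := W) (hsm s)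
  by_contra hcon
  push Not at hcon
  have huniv : (univ : Set (Om W.n)) ⊆ ⋃ s : ℕ, ⋃ i : ℕ, (S s).Bad W (a s) (i₀ s + (s + 3) + i) := by
    intro ω _
    obtain ⟨s, hs⟩ := hcon ω
    obtain ⟨i, hi, hb⟩ := hs (a s) (i₀ s + (s + 3))
    rw [mem_iUnion₂]
    refine ⟨s, i - (i₀ s + (s + 3)), ?_⟩
    rw [Nat.add_sub_cancel' hi]
    exact hb
  have h1 := measure_mono (μ := mu W.n) huniv
  rw [mu_univ] at h1
  have h2 : mu W.n (⋃ s : ℕ, ⋃ i : ℕ, (S s).Bad W (a s) (i₀ s + (s + 3) + i)) ≤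
      ∑' s : ℕ, ∑' i : ℕ, (2⁻¹ : ℝ≥0∞) ^ (s + 3 + i) := by
    refine (measure_iUnion_le _).trans (ENNReal.tsum_le_tsum fun s => ?_)
    refine (measure_iUnion_le _).trans (ENNReal.tsum_le_tsum fun i => ?_)
    refine (hmain s _ (by omega)).trans ?_
    rw [one_div, ← ENNReal.inv_pow, ENNReal.inv_le_inv]
    have h3 := W.H_two (i₀ s + (s + 3) + i)
    have h4 : 2 ^ (s + 3 + i) ≤ 2 ^ (i₀ s + (s + 3) + i + 1) := Nat.pow_le_pow_right (by norm_num) (by omega)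
    exact_mod_cast h4.trans h3
  have h3 : ∑' s : ℕ, ∑' i : ℕ, (2⁻¹ : ℝ≥0∞) ^ (s + 3 + i) = 2⁻¹ := by
    have e1 : ∀ s i : ℕ, (2⁻¹ : ℝ≥0∞) ^ (s + 3 + i) = (2⁻¹) ^ 3 * (2⁻¹) ^ s * (2⁻¹) ^ i := by
      intro s i
      rw [pow_add, pow_add, mul_comm ((2⁻¹ : ℝ≥0∞) ^ s)]
    simp only [e1]
    simp only [ENNReal.tsum_mul_left, ENNReal.tsum_mul_right, ENNReal.tsum_geometric, ENNReal.one_sub_inv_two, inv_inv]
    rw [show (3 : ℕ) = 1 + 1 + 1 from rfl, pow_add, pow_add, pow_one]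
    have h22 : (2⁻¹ : ℝ≥0∞) * 2 = 1 := ENNReal.inv_mul_cancel (by norm_num) (by norm_num)
    calc (2⁻¹ : ℝ≥0∞) * 2⁻¹ * 2⁻¹ * 2 * 2 = 2⁻¹ * (2⁻¹ * 2) * (2⁻¹ * 2) := by ring
      _ = 2⁻¹ := by rw [h22, mul_one, mul_one]
  rw [h3] at h2
  have h4 := h1.trans h2
  have h5 : (2⁻¹ : ℝ≥0∞) < 1 := ENNReal.inv_lt_one.2 (by norm_num)
  exact absurd h4 (not_le.2 h5)

end Pool.Agent.H608.Me
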