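import Pool.Agent.H608.Me.SerMea

/-!
# Polynomials in linear forms
-/

set_option autoImplicit false

namespace Pool.Agent.H608.Me

open Filter Topology Metric
open Pool.Agent.H608.Ge

/-- independent linear forms with integer coefficients, and a degree -/
def LF : Type := {L : Σ n t : ℕ, (Fin n → Fin t → ℤ) × ℕ //
  ∀ w' : Fin L.1 → ℂ, ∃ w : Fin L.2.1 → ℂ, ∀ i, ∑ j, (L.2.2.1 i j : ℂ) * w j = w' i}

instance : Countable LF := by
  unfold LF
  infer_instance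

/-- the entire functions -/
noncomputable def linE (L : LF) : Ent where
  t := L.1.2.1
  m := (expo L.1.1 L.1.2.2.2).card
  f := fun i w => mono L.1.1 L.1.2.2.2 i fun a => ∑ j, (L.1.2.2.1 a j : ℂ) * w j
  hf := by
    intro i
    have h1 : AnalyticOnNhd ℂ (fun w : Fin L.1.2.1 → ℂ => fun a : Fin L.1.1 => ∑ j, (L.1.2.2.1 a j : ℂ) * w j) Set.univ := by
      apply AnalyticOnNhd.pi
      intro a
      apply Finset.analyticOnNhd_fun_sum
      intro j _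
      exact analyticOnNhd_const.mul ((ContinuousLinearMap.proj (R := ℂ) (φ := fun _ : Fin L.1.2.1 => ℂ) j).analyticOnNhd _)
    exact (mono_analytic L.1.1 L.1.2.2.2 i).comp h1 fun _ _ => Set.mem_univ _
  hfi := by
    intro v hv
    obtain ⟨w', hw'⟩ := mono_ind L.1.1 L.1.2.2.2 v hv
    obtain ⟨w, hw⟩ := L.2 w'
    refine ⟨w, ?_⟩
    have : (fun a => ∑ j, (L.1.2.2.1 a j : ℂ) * w j) = w' := funext hw
    rw [this]
    exact hw'

open Classical in
/-- the measure of algebraic independence, for polynomials in linear forms -/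
theorem lfMea (o : ℕ → Ser) (ho : ∀ t, LinInd fun j : Fin t => o j) (F : ℕ → Ent) {A : Set ℕ} (hA : PolyDense A)
    {ε : ℝ} (hε : 0 < ε) (M : ℕ) :
    ∃ (E : Set ℕ) (z : ℕ → ℝ), E.Infinite ∧ (∀ k ∈ E, k ∈ A ∧ M ≤ k ∧ 1 ≤ k) ∧
      (∀ K : ℕ, 16 ≤ K → (({k : ℕ | k ∈ E ∧ k ≤ K}.ncard : ℕ) : ℝ) ≤ ε * Real.log (Real.log K)) ∧
      (∀ j, Tendsto (fun N : ℕ => (o j).x - ∑ k ∈ (Finset.range N).filter (· ∈ E), (o j).τ k) atTop (𝓝 (z j))) ∧
      (∀ (n t : ℕ) (V : Fin n → Fin t → ℤ),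
        (∀ w' : Fin n → ℂ, ∃ w : Fin t → ℂ, ∀ i, ∑ j, (V i j : ℂ) * w j = w' i) → ∀ d : ℕ,
        ∃ c : ℝ, 0 < c ∧ ∀ h : ℕ, 2 ≤ h → ∀ P : MvPolynomial (Fin n) ℤ, P ≠ 0 → P.totalDegree ≤ d →
        (∀ α, |P.coeff α| ≤ h) → (h : ℝ) ^ (-c) ≤ |MvPolynomial.aeval (fun i => ∑ j, (V i j : ℝ) * z j) P|) ∧
      ∀ n, ∃ c : ℝ, 0 < c ∧ ∀ h : ℕ, 2 ≤ h → ∀ v : Fin (F n).m → ℤ, v ≠ 0 → (∀ j, |v j| ≤ h) →
        (h : ℝ) ^ (-c) ≤ ‖∑ j, (v j : ℂ) * (F n).f j (rp fun i : Fin (F n).t => z i)‖ := by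
  obtain ⟨G, hG⟩ : ∃ G : ℕ ⊕ LF → Ent, G = Sum.elim F linE := ⟨_, rfl⟩
  obtain ⟨φ, hφ⟩ := exists_surjective_nat (ℕ ⊕ LF)
  obtain ⟨E, z, h1, h2, h3, h4, _, h5⟩ := serMea o ho (fun n => G (φ n)) hA hε M
  have key : ∀ s : ℕ ⊕ LF, ∃ c : ℝ, 0 < c ∧ ∀ h : ℕ, 2 ≤ h → ∀ v : Fin (G s).m → ℤ, v ≠ 0 → (∀ j, |v j| ≤ h) →
      (h : ℝ) ^ (-c) ≤ ‖∑ j, (v j : ℂ) * (G s).f j (rp fun i : Fin (G s).t => z i)‖ := by
    intro s
    obtain ⟨n, rfl⟩ := hφ s
    exact h5 n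
  refine ⟨E, z, h1, h2, h3, h4, fun n t V hV d => ?_, fun n => ?_⟩
  · obtain ⟨c, hc, hcb⟩ := key (Sum.inr ⟨⟨n, t, V, d⟩, hV⟩)
    rw [hG] at hcb
    refine ⟨c, hc, fun h hh P hP hPd hPh => ?_⟩
    have h6 := hcb h hh (fun i => P.coeff (num n d i : Fin n →₀ ℕ)) (by
      intro h0
      apply hP
      rw [← MvPolynomial.support_eq_empty, Finset.eq_empty_iff_forall_notMem]
      intro α hα
      have h6 := congrFun h0 ((num n d).symm ⟨α, support_sub hPd hα⟩)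
      simp only [Equiv.apply_symm_apply] at h6
      exact MvPolynomial.mem_support_iff.1 hα h6) (fun i => hPh _)
    have h7 := eval_mono hPd (fun i : Fin n => ∑ j, (V i j : ℝ) * z j)
    have h8 : rp (fun i : Fin n => ∑ j, (V i j : ℝ) * z j) =
        fun a => ∑ j, (V a j : ℂ) * (rp fun i : Fin t => z i) j := by
      funext i
      unfold rp
      push_cast
      rfl
    have h9 : ‖∑ i, ((P.coeff (num n d i : Fin n →₀ ℕ) : ℤ) : ℂ) * mono n d i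
        (rp fun i : Fin n => ∑ j, (V i j : ℝ) * z j)‖ =
        |MvPolynomial.aeval (fun i : Fin n => ∑ j, (V i j : ℝ) * z j) P| := by
      rw [h7, Complex.norm_real, Real.norm_eq_abs]
    rw [← h9, h8]
    exact h6
  · have h6 := key (Sum.inl n)
    rw [hG] at h6
    exact h6

/-- rationally independent rows give independent linear forms -/
lemma surj_of_ind {n t : ℕ} (V : Fin n → Fin t → ℤ)
    (h : ∀ b : Fin n → ℚ, (∀ j, ∑ i, b i * (V i j : ℚ) = 0) → b = 0) :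
    ∀ w' : Fin n → ℂ, ∃ w : Fin t → ℂ, ∀ i, ∑ j, (V i j : ℂ) * w j = w' i := by
  obtain ⟨T, hT⟩ : ∃ T : (Fin t → ℂ) →ₗ[ℂ] (Fin n → ℂ), T = Matrix.mulVecLin (Matrix.of fun i j => (V i j : ℂ)) :=
    ⟨_, rfl⟩
  have hTv : ∀ w i, T w i = ∑ j, (V i j : ℂ) * w j := by
    intro w i
    rw [hT]
    rfl
  by_contra hcon
  have hne : LinearMap.range T ≠ ⊤ := by
    intro h0
    apply hcon
    intro w'
    have h1 : w' ∈ LinearMap.range T := by rw [h0]; trivial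
    obtain ⟨w, hw⟩ := h1
    refine ⟨w, fun i => ?_⟩
    rw [← hTv, hw]
  obtain ⟨ℓ, hℓ0, hℓ⟩ := Submodule.exists_le_ker_of_lt_top _ (lt_top_iff_ne_top.2 hne)
  obtain ⟨c, hc⟩ : ∃ c : Fin n → ℂ, c = fun i => ℓ (Pi.single i 1) := ⟨_, rfl⟩
  have hℓc : ∀ w, ℓ w = ∑ j, c j * w j := by
    intro w
    have h1 : w = ∑ j, w j • (Pi.single j (1 : ℂ) : Fin n → ℂ) := by
      funext i
      rw [Finset.sum_apply, Finset.sum_eq_single i]
      · simp
      · intro j _ hji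
        simp [Ne.symm hji]
      · intro h
        exact absurd (Finset.mem_univ i) h
    conv_lhs => rw [h1]
    rw [map_sum]
    refine Finset.sum_congr rfl fun j _ => ?_
    rw [map_smul, hc, smul_eq_mul, mul_comm]
  have hc0 : ∃ i, c i ≠ 0 := by
    by_contra hcon
    push Not at hcon
    apply hℓ0
    apply LinearMap.ext
    intro w
    rw [hℓc]
    simp [hcon]
  obtain ⟨i₀, hi₀⟩ := hc0
  have hcol : ∀ j, ∑ i, c i * (V i j : ℂ) = 0 := by
    intro j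
    have h1 : T (Pi.single j 1) ∈ LinearMap.ker ℓ := hℓ (LinearMap.mem_range_self T _)
    rw [LinearMap.mem_ker, hℓc] at h1
    rw [← h1]
    refine Finset.sum_congr rfl fun i _ => ?_
    rw [hTv, Finset.sum_eq_single j]
    · simp
    · intro l _ hl
      simp [hl]
    · intro h
      exact absurd (Finset.mem_univ j) h
  obtain ⟨φ, hφ⟩ : ∃ φ : ℂ →ₗ[ℚ] ℚ, φ (c i₀) ≠ 0 := by
    by_contra hcon
    push Not at hcon
    exact hi₀ ((Module.forall_dual_apply_eq_zero_iff ℚ (c i₀)).1 hcon)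
  have h2 := h (fun i => φ (c i)) (by
    intro j
    have h3 := congrArg φ (hcol j)
    rw [map_sum, map_zero] at h3
    rw [← h3]
    refine Finset.sum_congr rfl fun i _ => ?_
    have h4 : c i * (V i j : ℂ) = (V i j : ℚ) • c i := by
      rw [Rat.smul_def]
      push_cast
      ring
    rw [h4, map_smul, smul_eq_mul, mul_comm])
  exact hφ (congrFun h2 i₀)

end Pool.Agent.H608.Me
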