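import Pool.Agent.H608.Me.Good

/-!
# Polynomial lower bounds for the values of analytic functions, after a few changes
-/

set_option autoImplicit false

namespace Pool.Agent.H608.Me

open MeasureTheory Set Filter Topology Metric
open Pool.Agent.H608.Ge (rp)

/-- `A` has at least `H ^ δ` elements in `[H, 2 H)`, for all large `H` and some `δ > 0` -/
def PolyDense (A : Set ℕ) : Prop :=
  ∃ δ : ℝ, 0 < δ ∧ ∀ᶠ H : ℕ in atTop, (H : ℝ) ^ δ ≤ (({k : ℕ | k ∈ A ∧ H ≤ k ∧ k < 2 * H}.ncard : ℕ) : ℝ)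

open Classical in
theorem exists_win {A : Set ℕ} (hA : PolyDense A) (G : ℕ) (hG : 2 ≤ G) (M : ℕ) :
    ∃ (W : Win) (J : ℕ), 1 ≤ J ∧ (∀ j, W.H j = 2 ^ (G ^ (J + j))) ∧ (∀ j a, W.e j a ∈ A) ∧ M ≤ W.H 0 := by
  obtain ⟨δ, hδ, hA⟩ := hA
  obtain ⟨h₀, hh₀⟩ := eventually_atTop.1 hA
  obtain ⟨d, hd⟩ : ∃ d : ℕ, 1 ≤ (G : ℝ) ^ d * δ := by
    have h1 : Tendsto (fun d : ℕ => (G : ℝ) ^ d) atTop atTop :=
      tendsto_pow_atTop_atTop_of_one_lt (by exact_mod_cast (by omega : 1 < G))
    obtain ⟨d, hd⟩ := (h1.eventually_ge_atTop (1 / δ)).exists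
    rw [div_le_iff₀ hδ] at hd
    exact ⟨d, hd⟩
  obtain ⟨J, hJ⟩ : ∃ J, J = h₀ + M + 2 := ⟨_, rfl⟩
  obtain ⟨H, hH⟩ : ∃ H : ℕ → ℕ, H = fun j => 2 ^ (G ^ (J + j)) := ⟨_, rfl⟩
  have hHJ : ∀ j, J < H j := by
    intro j
    rw [hH]
    have h1 : J + j < G ^ (J + j) := Nat.lt_pow_self (by omega)
    have h2 : G ^ (J + j) < 2 ^ (G ^ (J + j)) := Nat.lt_two_pow_self
    simp only
    omega
  obtain ⟨wd, hwd⟩ : ∃ wd : ℕ → Finset ℕ, wd = fun j => (Finset.Ico (H j) (2 * H j)).filter (· ∈ A) := ⟨_, rfl⟩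
  have hcard : ∀ j, (H j : ℝ) ^ δ ≤ (wd j).card := by
    intro j
    have h1 := hh₀ (H j) (by have := hHJ j; omega)
    have h2 : {k : ℕ | k ∈ A ∧ H j ≤ k ∧ k < 2 * H j} = (wd j : Set ℕ) := by
      ext k
      rw [hwd]
      simp only [mem_ofPred_eq, Finset.coe_filter, Finset.mem_Ico]
      tauto
    rw [h2, Set.ncard_coe_finset] at h1
    exact h1
  have hpos : ∀ j, 0 < (wd j).card := by
    intro j
    have h1 := hcard j
    have h2 : (0 : ℝ) < (H j : ℝ) ^ δ := Real.rpow_pos_of_pos (by exact_mod_cast (by have := hHJ j; omega : 0 < H j)) _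
    exact_mod_cast h2.trans_le h1
  obtain ⟨n, hn⟩ : ∃ n : ℕ → ℕ, n = fun j => (wd j).card - 1 := ⟨_, rfl⟩
  have hn1 : ∀ j, (wd j).card = n j + 1 := by
    intro j
    rw [hn]
    have := hpos j
    simp only
    omega
  have hmem : ∀ j (a : Fin (n j + 1)), (wd j).orderEmbOfFin (hn1 j) a ∈ wd j := fun j a => Finset.orderEmbOfFin_mem _ _ a
  have hmem' : ∀ j (a : Fin (n j + 1)), (H j ≤ (wd j).orderEmbOfFin (hn1 j) a ∧ (wd j).orderEmbOfFin (hn1 j) a < 2 * H j) ∧
      (wd j).orderEmbOfFin (hn1 j) a ∈ A := by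
    intro j a
    have h1 := hmem j a
    have h2 : ∀ k ∈ wd j, (H j ≤ k ∧ k < 2 * H j) ∧ k ∈ A := by
      intro k hk
      rw [hwd, Finset.mem_filter, Finset.mem_Ico] at hk
      exact hk
    exact h2 _ h1
  refine ⟨{
    n := n
    e := fun j a => (wd j).orderEmbOfFin (hn1 j) a
    H := H
    H2 := by
      intro j
      rw [hH]
      simp only
      rw [← pow_mul]
      apply Nat.pow_le_pow_right (by norm_num)
      rw [← add_assoc, pow_succ]
      exact Nat.mul_le_mul_left _ hG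
    H0 := by
      have := hHJ 0
      omega
    inj := fun j => ((wd j).orderEmbOfFin (hn1 j)).injective
    lo := fun j a => (hmem' j a).1.1
    hi := fun j a => (hmem' j a).1.2
    d := d
    big := by
      intro j
      rw [← hn1]
      have h1 := hcard (j + d)
      have h2 : (H j : ℝ) ≤ (H (j + d) : ℝ) ^ δ := by
        rw [hH]
        simp only
        push_cast
        rw [← Real.rpow_natCast, ← Real.rpow_natCast, ← Real.rpow_mul (by norm_num)]
        apply Real.rpow_le_rpow_of_exponent_le (by norm_num)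
        rw [← add_assoc, pow_add G (J + j) d]
        push_cast
        have h3 : (0 : ℝ) ≤ (G : ℝ) ^ (J + j) := by positivity
        calc (G : ℝ) ^ (J + j) = (G : ℝ) ^ (J + j) * 1 := by ring
          _ ≤ (G : ℝ) ^ (J + j) * ((G : ℝ) ^ d * δ) := mul_le_mul_of_nonneg_left hd h3
          _ = _ := by ring
      exact_mod_cast h2.trans h1 }, J, by omega, fun j => congrFun hH j, fun j a => (hmem' j a).2, ?_⟩
  show M ≤ H 0
  have := hHJ 0
  omega

open Classical in
/-- **Main theorem** -/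
theorem meaMain (S : ℕ → MSys) {A : Set ℕ} (hA : PolyDense A) {ε : ℝ} (hε : 0 < ε) {M : ℕ} (hM : 1 ≤ M)
    (hSM : ∀ s, 4 * (S s).C ≤ (S s).r / 2 * M) :
    ∃ (E : Set ℕ) (z : ∀ s, Fin (S s).t → ℝ), E.Infinite ∧ (∀ k ∈ E, k ∈ A ∧ M ≤ k) ∧
      (∀ K : ℕ, 16 ≤ K → (({k : ℕ | k ∈ E ∧ k ≤ K}.ncard : ℕ) : ℝ) ≤ ε * Real.log (Real.log K)) ∧
      (∀ s j, Tendsto (fun N : ℕ => (S s).x j - ∑ k ∈ (Finset.range N).filter (· ∈ E), (S s).τ k j) atTop (𝓝 (z s j))) ∧
      (∀ s j, |z s j - (S s).x j| < (S s).r) ∧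
      ∀ s, ∃ c : ℝ, 0 < c ∧ ∀ h : ℕ, 2 ≤ h → ∀ v : Fin (S s).m → ℤ, v ≠ 0 → (∀ j, |v j| ≤ h) →
        (h : ℝ) ^ (-c) ≤ ‖∑ j, (v j : ℂ) * (S s).f j (rp (z s))‖ := by
  -- the growth
  obtain ⟨G, hG2, hGε⟩ : ∃ G : ℕ, 2 ≤ G ∧ 2 / ε ≤ Real.log G := by
    have h1 : Tendsto (fun G : ℕ => Real.log G) atTop atTop := Real.tendsto_log_atTop.comp tendsto_natCast_atTop_atTop
    obtain ⟨G, h2, h3⟩ := ((h1.eventually_ge_atTop (2 / ε)).and (eventually_ge_atTop 2)).exists
    exact ⟨G, h3, h2⟩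
  obtain ⟨W, J, hJ1, hWH, hWA, hWM⟩ := exists_win hA G hG2 M
  have hMH : (M : ℝ) ≤ W.H 0 := by exact_mod_cast hWM
  have hM0 : (0 : ℝ) < M := by exact_mod_cast hM
  have hH0 := W.Hpos 0
  have hsm : ∀ s, (S s).C / W.H 0 * 2 ≤ (S s).r / 2 := by
    intro s
    have h1 := hSM s
    have h2 : (S s).r / 2 * M ≤ (S s).r / 2 * W.H 0 := mul_le_mul_of_nonneg_left hMH (by have := (S s).hr; positivity)
    have h0 : 0 ≤ (S s).C := by
      have := (norm_nonneg _).trans ((S s).hC 1 le_rfl)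
      simpa using this
    rw [div_mul_eq_mul_div, div_le_iff₀ hH0]
    linarith
  obtain ⟨ω, hω⟩ := exists_good S W hsm
  -- the chosen numbers
  obtain ⟨k, hk⟩ : ∃ k : ℕ → ℕ, k = fun j => W.e j (ω j) := ⟨_, rfl⟩
  have hklo : ∀ j, W.H j ≤ k j := fun j => by rw [hk]; exact W.lo j _
  have hkhi : ∀ j, k j < 2 * W.H j := fun j => by rw [hk]; exact W.hi j _
  have hkmono : StrictMono k := by
    apply strictMono_nat_of_lt_succ
    intro j
    have h1 := hkhi j
    have h2 := W.H_succ j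
    have h3 := hklo (j + 1)
    omega
  obtain ⟨E, hE⟩ : ∃ E : Set ℕ, E = range k := ⟨_, rfl⟩
  -- the real values
  obtain ⟨z, hz⟩ : ∃ z : ∀ s, Fin (S s).t → ℝ, z = fun s j => (S s).x j - ∑' i, (S s).τ (k i) j := ⟨_, rfl⟩
  have hsumm : ∀ s, Summable fun i => rp ((S s).τ (k i)) := by
    intro s
    have h1 := sh_summable (S s).hC ∅ ω
    simp only [Finset.notMem_empty, if_false] at h1
    rw [hk]
    exact h1
  have hsr : ∀ s j, Summable fun i => (S s).τ (k i) j := by
    intro s j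
    have h1 := Pi.summable.1 (hsumm s) j
    unfold rp at h1
    exact_mod_cast h1
  have hzZ : ∀ s, rp (z s) = (S s).Z W ∅ ω := by
    intro s
    have h1 : sh W (fun k => rp ((S s).τ k)) ∅ ω = ∑' i, rp ((S s).τ (k i)) := by
      unfold sh
      rw [hk]
      exact tsum_congr fun j => if_neg (Finset.notMem_empty j)
    unfold MSys.Z
    rw [h1]
    funext j
    rw [Pi.sub_apply, tsum_apply (hsumm s)]
    unfold rp
    rw [hz]
    simp only
    rw [Complex.ofReal_sub, Complex.ofReal_tsum]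
  have hloglog : ∀ K : ℕ, 16 ≤ K → (1 : ℝ) / Real.log 2 ≤ Real.log K ∧ 1 < Real.log K := by
    intro K hK
    have h1 : Real.log 16 ≤ Real.log K := Real.log_le_log (by norm_num) (by exact_mod_cast hK)
    have h2 : Real.log 16 = 4 * Real.log 2 := by
      rw [show (16 : ℝ) = 2 ^ 4 by norm_num, Real.log_pow]
      norm_num
    have h3 := Real.log_two_gt_d9
    constructor
    · rw [div_le_iff₀ (by linarith)]
      nlinarith
    · linarith
  refine ⟨E, z, ?_, ?_, ?_, ?_, ?_, ?_⟩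
  · rw [hE]
    exact infinite_range_of_injective hkmono.injective
  · intro l hl
    rw [hE] at hl
    obtain ⟨j, rfl⟩ := hl
    refine ⟨by rw [hk]; exact hWA j _, ?_⟩
    exact (hWM.trans (W.H_mono (Nat.zero_le j))).trans (hklo j)
  · -- the counting
    intro K hK
    obtain ⟨hK1, hK2⟩ := hloglog K hK
    obtain ⟨B, hB⟩ : ∃ B, B = Real.log (Real.log K / Real.log 2) / Real.log G := ⟨_, rfl⟩
    have hl2 : 0 < Real.log 2 := Real.log_pos (by norm_num)
    have hlG : 0 < Real.log G := Real.log_pos (by exact_mod_cast (by omega : 1 < G))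
    have hl0 : 0 < Real.log (Real.log K) := Real.log_pos hK2
    have hBe : B ≤ ε * Real.log (Real.log K) := by
      have h1 : Real.log (Real.log K / Real.log 2) ≤ 2 * Real.log (Real.log K) := by
        have h2 : Real.log K / Real.log 2 ≤ Real.log K ^ 2 := by
          rw [div_eq_mul_one_div, pow_two]
          exact mul_le_mul_of_nonneg_left hK1 (by linarith)
        have h3 := Real.log_le_log (by positivity) h2
        rwa [Real.log_pow] at h3
      rw [hB, div_le_iff₀ hlG]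
      rw [div_le_iff₀ hε] at hGε
      nlinarith
    have hsub : {l : ℕ | l ∈ E ∧ l ≤ K} ⊆ ((Finset.range ⌊B⌋₊).image k : Finset ℕ) := by
      rintro l ⟨hl, hlK⟩
      rw [hE] at hl
      obtain ⟨j, rfl⟩ := hl
      rw [Finset.mem_coe]
      apply Finset.mem_image_of_mem
      rw [Finset.mem_range]
      have h1 : W.H j ≤ K := (hklo j).trans hlK
      rw [hWH] at h1
      have h2 : ((2 : ℝ) ^ (G ^ (J + j))) ≤ K := by exact_mod_cast h1
      have h3 := Real.log_le_log (by positivity) h2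
      rw [Real.log_pow] at h3
      push_cast at h3
      have h4 : (G : ℝ) ^ (J + j) ≤ Real.log K / Real.log 2 := by
        rw [le_div_iff₀ hl2]
        exact h3
      have h5 := Real.log_le_log (by positivity) h4
      rw [Real.log_pow] at h5
      have h6 : ((J + j : ℕ) : ℝ) ≤ B := by
        rw [hB, le_div_iff₀ hlG]
        exact h5
      have h7 : J + j ≤ ⌊B⌋₊ := Nat.le_floor h6
      omega
    by_cases hB0 : 0 ≤ B
    · have h1 : ({l : ℕ | l ∈ E ∧ l ≤ K}.ncard : ℕ) ≤ ⌊B⌋₊ := by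
        refine (Set.ncard_le_ncard hsub (Finset.finite_toSet _)).trans ?_
        rw [Set.ncard_coe_finset]
        exact Finset.card_image_le.trans (by rw [Finset.card_range])
      calc (({l : ℕ | l ∈ E ∧ l ≤ K}.ncard : ℕ) : ℝ) ≤ (⌊B⌋₊ : ℝ) := by exact_mod_cast h1
        _ ≤ B := Nat.floor_le hB0
        _ ≤ _ := hBe
    · push Not at hB0
      have h1 : {l : ℕ | l ∈ E ∧ l ≤ K} = ∅ := by
        rw [Nat.floor_of_nonpos hB0.le] at hsub
        simpa using hsub
      rw [h1, Set.ncard_empty]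
      push_cast
      positivity
  · intro s j
    have h1 : HasSum (fun i => (S s).τ (k i) j) (∑' i, (S s).τ (k i) j) := (hsr s j).hasSum
    have h2 : HasSum (fun l => if l ∈ E then (S s).τ l j else 0) (∑' i, (S s).τ (k i) j) := by
      rw [← hkmono.injective.hasSum_iff (by
        intro l hl
        rw [hE, if_neg hl])]
      refine h1.congr_fun fun i => ?_
      simp only [Function.comp]
      rw [if_pos (by rw [hE]; exact mem_range_self i)]
    have h3 := h2.tendsto_sum_nat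
    have h4 : ∀ N, ∑ l ∈ Finset.range N, (if l ∈ E then (S s).τ l j else 0) =
        ∑ l ∈ (Finset.range N).filter (· ∈ E), (S s).τ l j := fun N => (Finset.sum_filter _ _).symm
    simp only [h4] at h3
    rw [hz]
    exact h3.const_sub _
  · intro s j
    have h1 := MSys.Z_mem (hsm s) ∅ ω
    rw [← hzZ s, mem_closedBall_iff_norm] at h1
    have h2 := (norm_le_pi_norm (rp (z s) - rp (S s).x) j).trans h1
    rw [Pi.sub_apply] at h2
    unfold rp at h2
    rw [← Complex.ofReal_sub, Complex.norm_real, Real.norm_eq_abs] at h2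
    have := (S s).hr
    linarith
  · intro s
    obtain ⟨a, i₀, hgood⟩ := hω s
    refine ⟨(G : ℝ) ^ (J + (i₀ + a)) + (G : ℝ) ^ (a + 1), by have : (0 : ℝ) < G := by exact_mod_cast (by omega : 0 < G)
                                                             positivity, fun h hh v hv hvh => ?_⟩
    have hh0 : (0 : ℝ) < h := by exact_mod_cast (by omega : 0 < h)
    have hh1 : (1 : ℝ) ≤ h := by exact_mod_cast (by omega : 1 ≤ h)
    have hex : ∃ i, i₀ ≤ i ∧ h ≤ W.H i := by
      obtain ⟨i, h1, h2⟩ := ((W.H_tendsto.eventually_ge_atTop (h : ℝ)).and (eventually_ge_atTop i₀)).exists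
      exact ⟨i, h2, by exact_mod_cast h1⟩
    obtain ⟨i, hi⟩ : ∃ i, i = Nat.find hex := ⟨_, rfl⟩
    obtain ⟨hi1, hi2⟩ := Nat.find_spec hex
    rw [← hi] at hi1 hi2
    have h1 : 1 / (W.H (i + a) : ℝ) ≤ ‖∑ j, (v j : ℂ) * (S s).f j (rp (z s))‖ := by
      by_contra hcon
      push Not at hcon
      apply hgood i hi1
      refine ⟨v, hv, fun j => (hvh j).trans (by exact_mod_cast hi2), ?_⟩
      rw [← hzZ s]
      exact hcon
    refine le_trans ?_ h1
    have hHia := W.Hpos (i + a)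
    rw [Real.rpow_neg hh0.le, ← one_div]
    apply one_div_le_one_div_of_le hHia
    have hGp : (0 : ℝ) < G := by exact_mod_cast (by omega : 0 < G)
    rcases Nat.eq_or_lt_of_le hi1 with h2 | h2
    · -- the first place
      rw [← h2, hWH]
      push_cast
      calc (2 : ℝ) ^ (G ^ (J + (i₀ + a))) = (2 : ℝ) ^ ((G : ℝ) ^ (J + (i₀ + a))) := by
            rw [← Real.rpow_natCast]
            push_cast
            rfl
        _ ≤ (h : ℝ) ^ ((G : ℝ) ^ (J + (i₀ + a))) :=
            Real.rpow_le_rpow (by norm_num) (by exact_mod_cast hh) (by positivity)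
        _ ≤ _ := Real.rpow_le_rpow_of_exponent_le hh1 (by have : (0 : ℝ) < (G : ℝ) ^ (a + 1) := by positivity
                                                          linarith)
    · have h3 : ¬ (i₀ ≤ i - 1 ∧ h ≤ W.H (i - 1)) := by
        apply Nat.find_min hex
        rw [← hi]
        omega
      have h4 : W.H (i - 1) < h := by
        by_contra hcon
        exact h3 ⟨by omega, by omega⟩
      have h5 : W.H (i + a) = W.H (i - 1) ^ (G ^ (a + 1)) := by
        rw [hWH, hWH, ← pow_mul, ← pow_add]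
        congr 2
        omega
      rw [h5]
      push_cast
      calc ((W.H (i - 1) : ℝ)) ^ (G ^ (a + 1)) ≤ (h : ℝ) ^ (G ^ (a + 1)) :=
            pow_le_pow_left₀ (W.Hpos _).le (by exact_mod_cast h4.le) _
        _ = (h : ℝ) ^ ((G : ℝ) ^ (a + 1)) := by
            rw [← Real.rpow_natCast]
            push_cast
            rfl
        _ ≤ _ := Real.rpow_le_rpow_of_exponent_le hh1 (by have : (0 : ℝ) < (G : ℝ) ^ (J + (i₀ + a)) := by positivity
                                                          linarith)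

end Pool.Agent.H608.Me
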