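import Mathlib

/-!
# Counting near coincidences of powers
-/

set_option autoImplicit false

namespace Pool.Agent.H608.Me

open Filter Topology

/-- the near coincidences -/
def nc (a b x : ℝ) : Set (ℕ × ℕ) := {p | |a ^ p.1 - b ^ p.2| ≤ x}

/-- the pairs in a box -/
noncomputable def box (α β Y : ℝ) : Finset (ℕ × ℕ) := Finset.range (⌊Y / α⌋₊ + 1) ×ˢ Finset.range (⌊Y / β⌋₊ + 1)

lemma mem_box {α β Y : ℝ} (hα : 0 < α) (hβ : 0 < β) (hY : 0 ≤ Y) (p : ℕ × ℕ) :
    p ∈ box α β Y ↔ p.1 * α ≤ Y ∧ p.2 * β ≤ Y := by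
  unfold box
  rw [Finset.mem_product, Finset.mem_range, Finset.mem_range, Nat.lt_add_one_iff, Nat.lt_add_one_iff,
    Nat.le_floor_iff (div_nonneg hY hα.le), Nat.le_floor_iff (div_nonneg hY hβ.le), le_div_iff₀ hα, le_div_iff₀ hβ]

lemma card_box_le {α β Y : ℝ} (hα : 0 < α) (hβ : 0 < β) (hY : 0 ≤ Y) :
    ((box α β Y).card : ℝ) ≤ (Y / α + 1) * (Y / β + 1) := by
  unfold box
  rw [Finset.card_product, Finset.card_range, Finset.card_range]
  push_cast
  have h1 := Nat.floor_le (div_nonneg hY hα.le)
  have h2 := Nat.floor_le (div_nonneg hY hβ.le)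
  gcongr

lemma le_card_box {α β Y : ℝ} (hα : 0 < α) (hβ : 0 < β) (hY : 0 ≤ Y) : Y / α * (Y / β) ≤ ((box α β Y).card : ℝ) := by
  unfold box
  rw [Finset.card_product, Finset.card_range, Finset.card_range]
  push_cast
  have h1 := Nat.lt_floor_add_one (Y / α)
  have h2 := Nat.lt_floor_add_one (Y / β)
  have := div_nonneg hY hα.le
  have := div_nonneg hY hβ.le
  gcongr

/-- the size of the powers in a near coincidence -/
lemma log_le {α β x : ℝ} {n m : ℕ} (hx : 4 ≤ x) (hle : m * β ≤ n * α)
    (h : |Real.exp (n * α) - Real.exp (m * β)| ≤ x) :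
    n * α ≤ Real.log x + Real.log 2 ∨
      (0 < n * α - m * β → n * α ≤ Real.log x + Real.log 2 - Real.log (n * α - m * β)) := by
  by_cases h1 : n * α ≤ Real.log x + Real.log 2
  · exact Or.inl h1
  right
  intro hΛ
  push Not at h1
  have hx0 : 0 < x := by linarith
  have h2 : 0 ≤ Real.exp (n * α) - Real.exp (m * β) := sub_nonneg.2 (Real.exp_le_exp.2 hle)
  rw [abs_of_nonneg h2] at h
  obtain ⟨y, hy⟩ : ∃ y, y = Real.exp (n * α) := ⟨_, rfl⟩
  obtain ⟨L, hL⟩ : ∃ L, L = n * α - m * β := ⟨_, rfl⟩
  have hy0 : 0 < y := by rw [hy]; exact Real.exp_pos _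
  have h3 : Real.exp (m * β) = y * Real.exp (-L) := by
    rw [hy, ← Real.exp_add]
    congr 1
    rw [hL]
    ring
  rw [h3, ← hy] at h
  have h4 : 2 * x < y := by
    have h5 := Real.exp_lt_exp.2 h1
    rw [Real.exp_add, Real.exp_log hx0, Real.exp_log two_pos, ← hy] at h5
    linarith
  -- `L` is small
  have h5 : 1 / 2 < Real.exp (-L) := by
    by_contra hcon
    push Not at hcon
    nlinarith
  have hL1 : L < 1 := by
    by_contra hcon
    push Not at hcon
    have h6 : Real.exp (-L) ≤ Real.exp (-1) := Real.exp_le_exp.2 (by linarith)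
    have h7 : Real.exp (-1) < 1 / 2 := by
      rw [Real.exp_neg, inv_lt_comm₀ (Real.exp_pos 1) (by norm_num)]
      have := Real.exp_one_gt_d9
      norm_num
      linarith
    linarith
  rw [← hL] at hΛ ⊢
  have h8 : Real.exp (-L) ≤ 1 - L / 2 := by
    have h9 : Real.exp (-L) ≤ 1 / (1 + L) := by
      rw [Real.exp_neg, one_div]
      apply inv_anti₀ (by linarith)
      have := Real.add_one_le_exp L
      linarith
    have h10 : 1 / (1 + L) ≤ 1 - L / 2 := by
      rw [div_le_iff₀ (by linarith)]
      nlinarith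
    linarith
  have h11 : y * (L / 2) ≤ x := by nlinarith
  have h12 : y ≤ 2 * x / L := by
    rw [le_div_iff₀ hΛ]
    linarith
  have h13 := Real.log_le_log hy0 h12
  rw [Real.log_div (by positivity) hΛ.ne', Real.log_mul (by norm_num) hx0.ne', hy, Real.log_exp] at h13
  linarith

/-- **near coincidences**, from a lower bound for the linear form -/
theorem near {a b c : ℝ} (ha : 1 < a) (hb : 1 < b) (hc : 0 < c)
    (h : ∀ H : ℕ, 2 ≤ H → ∀ n m : ℕ, (n ≠ 0 ∨ m ≠ 0) → n ≤ H → m ≤ H →
      (H : ℝ) ^ (-c) ≤ |n * Real.log a - m * Real.log b|) :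
    (∀ x : ℝ, (nc a b x).Finite) ∧
    Asymptotics.IsEquivalent atTop (fun x : ℝ => (((nc a b x).ncard : ℕ) : ℝ))
      (fun x : ℝ => Real.log x ^ 2 / (Real.log a * Real.log b)) := by
  obtain ⟨α, hα⟩ : ∃ α, α = Real.log a := ⟨_, rfl⟩
  obtain ⟨β, hβ⟩ : ∃ β, β = Real.log b := ⟨_, rfl⟩
  have hα0 : 0 < α := by rw [hα]; exact Real.log_pos ha
  have hβ0 : 0 < β := by rw [hβ]; exact Real.log_pos hb
  have hpa : ∀ n : ℕ, a ^ n = Real.exp (n * α) := by
    intro n
    rw [hα, mul_comm, Real.exp_mul, Real.exp_log (by linarith), Real.rpow_natCast]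
  have hpb : ∀ n : ℕ, b ^ n = Real.exp (n * β) := by
    intro n
    rw [hβ, mul_comm, Real.exp_mul, Real.exp_log (by linarith), Real.rpow_natCast]
  rw [← hα, ← hβ] at h ⊢
  -- symmetric bound
  have hsym : ∀ x : ℝ, 4 ≤ x → ∀ p ∈ nc a b x, ∃ L : ℝ, p.1 * α ≤ L ∧ p.2 * β ≤ L ∧
      (L ≤ Real.log x + Real.log 2 ∨ (0 < L ∧ L ≤ Real.log x + Real.log 2 +
        c * Real.log ((1 / α + 1 / β) * L + 2))) := by
    rintro x hx ⟨n, m⟩ hp
    have hp' : |Real.exp (n * α) - Real.exp (m * β)| ≤ x := by
      have : |a ^ n - b ^ m| ≤ x := hp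
      rwa [hpa, hpb] at this
    -- the lower bound
    have hlow : ∀ L : ℝ, 0 < L → n * α ≤ L → m * β ≤ L → (n ≠ 0 ∨ m ≠ 0) →
        -Real.log |n * α - m * β| ≤ c * Real.log ((1 / α + 1 / β) * L + 2) := by
      intro L hL h1 h2 hnm
      obtain ⟨H, hH⟩ : ∃ H : ℕ, H = max (max n m) 2 := ⟨_, rfl⟩
      have h3 := h H (by omega) n m hnm (by omega) (by omega)
      have hH0 : (0 : ℝ) < H := by exact_mod_cast (by omega : 0 < H)
      have hHL : (H : ℝ) ≤ (1 / α + 1 / β) * L + 2 := by
        have e1 : (n : ℝ) ≤ 1 / α * L := by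
          rw [one_div_mul_eq_div, le_div_iff₀ hα0]
          exact h1
        have e2 : (m : ℝ) ≤ 1 / β * L := by
          rw [one_div_mul_eq_div, le_div_iff₀ hβ0]
          exact h2
        have e3 : 0 < 1 / α * L := by positivity
        have e4 : 0 < 1 / β * L := by positivity
        rw [hH]
        push_cast
        rw [add_mul]
        refine max_le (max_le ?_ ?_) ?_ <;> linarith
      have h4 : Real.log ((H : ℝ) ^ (-c)) ≤ Real.log |n * α - m * β| :=
        Real.log_le_log (Real.rpow_pos_of_pos hH0 _) h3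
      rw [Real.log_rpow hH0] at h4
      have h5 : Real.log H ≤ Real.log ((1 / α + 1 / β) * L + 2) := Real.log_le_log hH0 hHL
      nlinarith
    rcases le_total (m * β) (n * α) with hle | hle
    · refine ⟨n * α, le_rfl, hle, ?_⟩
      rcases log_le hx hle hp' with h1 | h1
      · exact Or.inl h1
      · by_cases hn0 : n = 0
        · left
          rw [hn0]
          push_cast
          rw [zero_mul]
          have := Real.log_nonneg (show (1 : ℝ) ≤ x by linarith)
          have := Real.log_nonneg (show (1 : ℝ) ≤ 2 by norm_num)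
          linarith
        · have hn1 : (0 : ℝ) < n * α := by
            have : (0 : ℝ) < n := by exact_mod_cast Nat.pos_of_ne_zero hn0
            positivity
          have hne : 0 < |n * α - m * β| := by
            obtain ⟨H, hH⟩ : ∃ H : ℕ, H = max (max n m) 2 := ⟨_, rfl⟩
            have h3 := h H (by omega) n m (Or.inl hn0) (by omega) (by omega)
            exact (Real.rpow_pos_of_pos (by exact_mod_cast (by omega : 0 < H)) _).trans_le h3
          have hab : |n * α - m * β| = n * α - m * β := abs_of_nonneg (by linarith)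
          right
          refine ⟨hn1, ?_⟩
          have h2 := hlow (n * α) hn1 le_rfl hle (Or.inl hn0)
          rw [hab] at h2 hne
          have h3 := h1 hne
          linarith
    · refine ⟨m * β, hle, le_rfl, ?_⟩
      rw [abs_sub_comm] at hp'
      rcases log_le hx hle hp' with h1 | h1
      · exact Or.inl h1
      · by_cases hm0 : m = 0
        · left
          rw [hm0]
          push_cast
          rw [zero_mul]
          have := Real.log_nonneg (show (1 : ℝ) ≤ x by linarith)
          have := Real.log_nonneg (show (1 : ℝ) ≤ 2 by norm_num)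
          linarith
        · have hm1 : (0 : ℝ) < m * β := by
            have : (0 : ℝ) < m := by exact_mod_cast Nat.pos_of_ne_zero hm0
            positivity
          have hne : 0 < |n * α - m * β| := by
            obtain ⟨H, hH⟩ : ∃ H : ℕ, H = max (max n m) 2 := ⟨_, rfl⟩
            have h3 := h H (by omega) n m (Or.inr hm0) (by omega) (by omega)
            exact (Real.rpow_pos_of_pos (by exact_mod_cast (by omega : 0 < H)) _).trans_le h3
          have hab : |n * α - m * β| = m * β - n * α := by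
            rw [abs_sub_comm]
            exact abs_of_nonneg (by linarith)
          right
          refine ⟨hm1, ?_⟩
          have h2 := hlow (m * β) hm1 hle le_rfl (Or.inr hm0)
          rw [hab] at h2 hne
          have h3 := h1 hne
          linarith
  -- the logarithm is small
  have hsmall : ∀ η : ℝ, 0 < η → ∃ L₀ : ℝ, 0 < L₀ ∧ ∀ L : ℝ, L₀ ≤ L →
      Real.log 2 + c * Real.log ((1 / α + 1 / β) * L + 2) ≤ η * L := by
    intro η hη
    have hK : 0 < 1 / α + 1 / β := by positivity
    have h1 : Tendsto (fun L : ℝ => Real.log ((1 / α + 1 / β) * L + 2) / L) atTop (𝓝 0) := by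
      have h2 : Tendsto (fun L : ℝ => (1 / α + 1 / β) * L + 2) atTop atTop :=
        tendsto_atTop_add_const_right _ _ (tendsto_id.const_mul_atTop hK)
      have h3 : (fun L : ℝ => Real.log ((1 / α + 1 / β) * L + 2)) =o[atTop] fun L : ℝ => (1 / α + 1 / β) * L + 2 :=
        Real.isLittleO_log_id_atTop.comp_tendsto h2
      have h4 : (fun L : ℝ => (1 / α + 1 / β) * L + 2) =O[atTop] fun L : ℝ => L := by
        apply (Asymptotics.isBigO_const_mul_self _ _ _).add
        exact (Asymptotics.isLittleO_const_id_atTop (2 : ℝ)).isBigO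
      exact (h3.trans_isBigO h4).tendsto_div_nhds_zero
    have h5 : Tendsto (fun L : ℝ => Real.log 2 / L + c * (Real.log ((1 / α + 1 / β) * L + 2) / L)) atTop (𝓝 0) := by
      have h6 := (tendsto_const_nhds (x := Real.log 2)).div_atTop tendsto_id
      have h7 := h6.add (h1.const_mul c)
      simpa using h7
    obtain ⟨L₁, hL₁⟩ := eventually_atTop.1 (h5.eventually_le_const hη)
    refine ⟨max L₁ 1, by positivity, fun L hL => ?_⟩
    have hL0 : 0 < L := lt_of_lt_of_le (by positivity) hL
    have h8 := hL₁ L ((le_max_left _ _).trans hL)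
    have h9 := mul_le_mul_of_nonneg_right h8 hL0.le
    have h10 : (Real.log 2 / L + c * (Real.log ((1 / α + 1 / β) * L + 2) / L)) * L =
        Real.log 2 + c * Real.log ((1 / α + 1 / β) * L + 2) := by
      field_simp
    rw [h10] at h9
    exact h9
  -- the upper box
  have hup : ∀ η : ℝ, 0 < η → η < 1 → ∃ x₀ : ℝ, 4 ≤ x₀ ∧ ∀ x, x₀ ≤ x →
      nc a b x ⊆ (box α β ((1 + η) * Real.log x) : Set (ℕ × ℕ)) := by
    intro η hη hη1
    obtain ⟨L₀, hL₀, hL⟩ := hsmall (η / 2) (by linarith)
    obtain ⟨x₀, hx₀⟩ := eventually_atTop.1 ((Real.tendsto_log_atTop.eventually_ge_atTop (L₀ + Real.log 2 / η)).and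
      (eventually_ge_atTop (4 : ℝ)))
    refine ⟨max x₀ 4, le_max_right _ _, fun x hx p hp => ?_⟩
    obtain ⟨h1, h2⟩ := hx₀ x ((le_max_left _ _).trans hx)
    have hl2 : 0 < Real.log 2 := Real.log_pos (by norm_num)
    have hX : 0 < Real.log x := Real.log_pos (by linarith)
    obtain ⟨L, hL1, hL2, hL3⟩ := hsym x h2 p hp
    rw [Finset.mem_coe, mem_box hα0 hβ0 (by positivity)]
    have hLX : L ≤ (1 + η) * Real.log x := by
      have h3 : Real.log 2 ≤ η * Real.log x := by
        have h4 : η * (L₀ + Real.log 2 / η) ≤ η * Real.log x := mul_le_mul_of_nonneg_left h1 hη.le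
        have h5 : η * (L₀ + Real.log 2 / η) = η * L₀ + Real.log 2 := by field_simp
        rw [h5] at h4
        have : 0 < η * L₀ := by positivity
        linarith
      rcases hL3 with h6 | ⟨h6, h7⟩
      · linarith
      · by_cases h8 : L₀ ≤ L
        · have h9 := hL L h8
          have h10 : L * (1 - η / 2) ≤ Real.log x := by linarith
          have h11 : L ≤ (1 + η) * (L * (1 - η / 2)) := by
            have : (1 + η) * (1 - η / 2) = 1 + η / 2 * (1 - η) := by ring
            have h12 : 0 ≤ η / 2 * (1 - η) := mul_nonneg (by linarith) (by linarith)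
            nlinarith
          have h13 : (1 + η) * (L * (1 - η / 2)) ≤ (1 + η) * Real.log x := mul_le_mul_of_nonneg_left h10 (by linarith)
          linarith
        · push Not at h8
          have : 0 < Real.log 2 / η := by positivity
          nlinarith
    exact ⟨hL1.trans hLX, hL2.trans hLX⟩
  have hmono : ∀ x y : ℝ, x ≤ y → nc a b x ⊆ nc a b y := fun x y hxy p hp => le_trans hp hxy
  have hfin : ∀ x : ℝ, (nc a b x).Finite := by
    intro x
    obtain ⟨x₀, _, hx₀⟩ := hup (1 / 2) (by norm_num) (by norm_num)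
    exact (Finset.finite_toSet _).subset ((hmono x (max x x₀) (le_max_left _ _)).trans (hx₀ _ (le_max_right _ _)))
  refine ⟨hfin, ?_⟩
  have hlowb : ∀ x : ℝ, 1 < x → (box α β (Real.log x) : Set (ℕ × ℕ)) ⊆ nc a b x := by
    intro x hx p hp
    have hX : 0 < Real.log x := Real.log_pos hx
    rw [Finset.mem_coe, mem_box hα0 hβ0 hX.le] at hp
    have h1 : a ^ p.1 ≤ x := by
      rw [hpa]
      calc Real.exp (p.1 * α) ≤ Real.exp (Real.log x) := Real.exp_le_exp.2 hp.1
        _ = x := Real.exp_log (by linarith)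
    have h2 : b ^ p.2 ≤ x := by
      rw [hpb]
      calc Real.exp (p.2 * β) ≤ Real.exp (Real.log x) := Real.exp_le_exp.2 hp.2
        _ = x := Real.exp_log (by linarith)
    have h3 : 0 < a ^ p.1 := by positivity
    have h4 : 0 < b ^ p.2 := by positivity
    show |a ^ p.1 - b ^ p.2| ≤ x
    rw [abs_le]
    constructor <;> linarith
  rw [Asymptotics.isEquivalent_iff_tendsto_one]
  · rw [Metric.tendsto_nhds]
    intro ε hε
    obtain ⟨η, hη0, hη1, hηε⟩ : ∃ η : ℝ, 0 < η ∧ η < 1 ∧ (1 + 2 * η) ^ 2 < 1 + ε := by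
      refine ⟨min (1 / 2) (ε / 16), by positivity, (min_le_left _ _).trans_lt (by norm_num), ?_⟩
      have h1 := min_le_left (1 / 2 : ℝ) (ε / 16)
      have h2 := min_le_right (1 / 2 : ℝ) (ε / 16)
      have h3 : 0 < min (1 / 2 : ℝ) (ε / 16) := by positivity
      nlinarith
    obtain ⟨x₀, hx₀4, hx₀⟩ := hup η hη0 hη1
    obtain ⟨x₁, hx₁⟩ := eventually_atTop.1 (Real.tendsto_log_atTop.eventually_ge_atTop ((α + β) / η))
    filter_upwards [eventually_ge_atTop x₀, eventually_ge_atTop x₁] with x hxx₀ hxx₁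
    have hX : 0 < Real.log x := Real.log_pos (by linarith)
    have hXη := hx₁ x hxx₁
    rw [div_le_iff₀ hη0] at hXη
    have h1 : Real.log x / α * (Real.log x / β) ≤ ((nc a b x).ncard : ℝ) := by
      refine (le_card_box hα0 hβ0 hX.le).trans ?_
      have := Set.ncard_le_ncard (hlowb x (by linarith)) (hfin x)
      rw [Set.ncard_coe_finset] at this
      exact_mod_cast this
    have h2 : ((nc a b x).ncard : ℝ) ≤ ((1 + η) * Real.log x / α + 1) * ((1 + η) * Real.log x / β + 1) := by
      refine le_trans ?_ (card_box_le hα0 hβ0 (by positivity))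
      have := Set.ncard_le_ncard (hx₀ x hxx₀) (Finset.finite_toSet _)
      rw [Set.ncard_coe_finset] at this
      exact_mod_cast this
    have h3 : (1 + η) * Real.log x / α + 1 ≤ (1 + 2 * η) * Real.log x / α := by
      rw [div_add_one hα0.ne', div_le_div_iff_of_pos_right hα0]
      nlinarith
    have h4 : (1 + η) * Real.log x / β + 1 ≤ (1 + 2 * η) * Real.log x / β := by
      rw [div_add_one hβ0.ne', div_le_div_iff_of_pos_right hβ0]
      nlinarith
    have h5 : ((nc a b x).ncard : ℝ) ≤ (1 + 2 * η) ^ 2 * (Real.log x ^ 2 / (α * β)) := by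
      refine h2.trans ?_
      calc _ ≤ ((1 + 2 * η) * Real.log x / α) * ((1 + 2 * η) * Real.log x / β) := by gcongr
        _ = _ := by field_simp
    have h6 : Real.log x ^ 2 / (α * β) ≤ ((nc a b x).ncard : ℝ) := by
      refine le_trans (le_of_eq ?_) h1
      field_simp
    have h7 : 0 < Real.log x ^ 2 / (α * β) := by positivity
    rw [Real.dist_eq, Pi.div_apply, abs_lt]
    constructor
    · have : 1 ≤ ((nc a b x).ncard : ℝ) / (Real.log x ^ 2 / (α * β)) := by
        rw [le_div_iff₀ h7]
        linarith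
      linarith
    · have : ((nc a b x).ncard : ℝ) / (Real.log x ^ 2 / (α * β)) ≤ (1 + 2 * η) ^ 2 := by
        rw [div_le_iff₀ h7]
        exact h5
      linarith
  · filter_upwards [eventually_gt_atTop (1 : ℝ)] with x hx
    have := Real.log_pos hx
    positivity

end Pool.Agent.H608.Me
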