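import Pool.Agent.H608.Me.Ops

/-!
# Some derivative along the curve does not vanish
-/

set_option autoImplicit false

namespace Pool.Agent.H608.Me

open Set Filter Topology Metric

variable {t m : ℕ}

/-- the function together with its coefficients -/
def jf (f : Fin m → (Fin t → ℂ) → ℂ) : (Fin m → ℂ) × (Fin t → ℂ) → ℂ := fun p => ∑ i, p.1 i * f i p.2

/-- the curve -/
def jg (γ : ℂ → Fin t → ℂ) : ℂ → (Fin m → ℂ) × (Fin t → ℂ) := fun u => (0, γ u)

/-- the coordinates are linearly independent -/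
def CInd (γ : ℂ → Fin t → ℂ) : Prop := ∀ c : Fin t → ℂ, c ≠ 0 → ¬ ∀ᶠ u in 𝓝 (0 : ℂ), ∑ j, c j * γ u j = 0

lemma jf_analytic {f : Fin m → (Fin t → ℂ) → ℂ} {U : Set (Fin t → ℂ)} (hf : ∀ i, AnalyticOnNhd ℂ (f i) U) :
    AnalyticOnNhd ℂ (jf f) (univ ×ˢ U) := by
  apply Finset.analyticOnNhd_fun_sum
  intro i _
  apply AnalyticOnNhd.mul
  · exact ((ContinuousLinearMap.proj (R := ℂ) (φ := fun _ : Fin m => ℂ) i).comp
      (ContinuousLinearMap.fst ℂ (Fin m → ℂ) (Fin t → ℂ))).analyticOnNhd _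
  · exact (hf i).comp analyticOnNhd_snd fun p hp => hp.2

lemma jg_analytic {γ : ℂ → Fin t → ℂ} {s : Set ℂ} (hγ : AnalyticOnNhd ℂ γ s) :
    AnalyticOnNhd ℂ (jg (m := m) γ) s := analyticOnNhd_const.prod hγ

lemma jg_zero {γ : ℂ → Fin t → ℂ} (γ0 : γ 0 = 0) : jg (m := m) γ 0 = 0 := by
  unfold jg
  rw [γ0]
  rfl

lemma span_deriv {γ : ℂ → Fin t → ℂ} {ρ δ : ℝ} (γ0 : γ 0 = 0) (hγ : AnalyticOnNhd ℂ γ (ball 0 ρ)) (hδ : 0 < δ)
    (hδρ : δ ≤ ρ) (hind : CInd γ) : Submodule.span ℂ (deriv γ '' ball 0 δ) = ⊤ := by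
  by_contra hcon
  obtain ⟨ℓ, hℓ0, hℓ⟩ := Submodule.exists_le_ker_of_lt_top _ (lt_top_iff_ne_top.2 hcon)
  obtain ⟨c, hc⟩ : ∃ c : Fin t → ℂ, c = fun j => ℓ (Pi.single j 1) := ⟨_, rfl⟩
  have hℓc : ∀ w, ℓ w = ∑ j, c j * w j := by
    intro w
    have h1 : w = ∑ j, w j • (Pi.single j (1 : ℂ) : Fin t → ℂ) := by
      funext i
      rw [Finset.sum_apply, Finset.sum_eq_single i]
      · simp
      · intro j _ hji
        simp [Ne.symm hji]
      · intro h
        exact absurd (Finset.mem_univ i) h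
    conv_lhs => rw [h1]
    rw [map_sum]
    refine Finset.sum_congr rfl fun j _ => ?_
    rw [map_smul, hc, smul_eq_mul, mul_comm]
  have hc0 : c ≠ 0 := by
    intro h0
    apply hℓ0
    apply LinearMap.ext
    intro w
    rw [hℓc, h0]
    simp
  apply hind c hc0
  have hd : ∀ u ∈ ball (0 : ℂ) δ, HasDerivAt (fun u => ∑ j, c j * γ u j) 0 u := by
    intro u hu
    have h1 : HasDerivAt γ (deriv γ u) u := (hγ u (ball_subset_ball hδρ hu)).differentiableAt.hasDerivAt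
    have h2 : HasDerivAt (fun u => ∑ j, c j * γ u j) (∑ j, c j * deriv γ u j) u := by
      apply HasDerivAt.fun_sum
      intro j _
      exact ((hasDerivAt_pi.1 h1) j).const_mul (c j)
    have h3 : ∑ j, c j * deriv γ u j = 0 := by
      rw [← hℓc]
      exact LinearMap.mem_ker.1 (hℓ (Submodule.subset_span (mem_image_of_mem _ hu)))
    rwa [h3] at h2
  filter_upwards [isOpen_ball.mem_nhds (mem_ball_self (x := (0 : ℂ)) hδ)] with u hu
  have h4 := isOpen_ball.is_const_of_deriv_eq_zero (f := fun u => ∑ j, c j * γ u j) (convex_ball (0 : ℂ) δ).isPreconnected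
    (fun w hw => (hd w hw).differentiableAt.differentiableWithinAt) (fun w hw => (hd w hw).deriv) hu
    (mem_ball_self hδ)
  rw [h4, γ0]
  simp

theorem nondeg {f : Fin m → (Fin t → ℂ) → ℂ} {γ : ℂ → Fin t → ℂ} {ρ r : ℝ} {x : Fin t → ℂ} (hρ : 0 < ρ)
    (γ0 : γ 0 = 0) (hγ : AnalyticOnNhd ℂ γ (ball 0 ρ)) (hind : CInd γ)
    (hf : ∀ i, AnalyticOnNhd ℂ (f i) (ball x r))
    (hfi : ∀ v : Fin m → ℂ, v ≠ 0 → ∃ w ∈ ball x r, ∑ i, v i * f i w ≠ 0)
    {v : Fin m → ℂ} (hv : v ≠ 0) {y : Fin t → ℂ} (hy : y ∈ ball x r) :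
    ∃ κ, Lk (jg γ) κ (jf f) (v, y) ≠ 0 := by
  by_contra hcon
  push Not at hcon
  have hsum : ∀ u : Fin t → ℂ, ((v, y) : (Fin m → ℂ) × (Fin t → ℂ)) - ∑ l, jg γ (u l) = (v, y - ∑ l, γ (u l)) := by
    intro u
    apply Prod.ext
    · show v - (∑ l, jg γ (u l)).1 = v
      rw [Prod.fst_sum]
      simp [jg]
    · show y - (∑ l, jg γ (u l)).2 = y - ∑ l, γ (u l)
      rw [Prod.snd_sum]
      rfl
  -- the small radius
  obtain ⟨δ, hδ, hδρ, hδU⟩ : ∃ δ : ℝ, 0 < δ ∧ δ ≤ ρ ∧ ∀ u : Fin t → ℂ, (∀ l, u l ∈ ball (0 : ℂ) δ) →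
      y - ∑ l, γ (u l) ∈ ball x r := by
    have h1 : ContinuousAt (fun u : Fin t → ℂ => y - ∑ l, γ (u l)) 0 := by
      apply continuousAt_const.sub
      refine tendsto_finsetSum _ fun l _ => ?_
      have h2 : ContinuousAt γ 0 := (hγ 0 (mem_ball_self hρ)).continuousAt
      have h3 : Tendsto (fun u : Fin t → ℂ => u l) (𝓝 0) (𝓝 0) := (continuous_apply l).tendsto (0 : Fin t → ℂ)
      exact h2.tendsto.comp h3
    have h2 : ∀ᶠ u in 𝓝 (0 : Fin t → ℂ), y - ∑ l, γ (u l) ∈ ball x r := by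
      apply h1.eventually_mem
      apply isOpen_ball.mem_nhds
      simp only [Pi.zero_apply, γ0]
      simpa using hy
    obtain ⟨ε, hε, h3⟩ := Metric.eventually_nhds_iff_ball.1 h2
    refine ⟨min ε ρ, lt_min hε hρ, min_le_right _ _, fun u hu => h3 u ?_⟩
    rw [ball_pi _ hε, Set.mem_univ_pi]
    exact fun l => ball_subset_ball (min_le_left _ _) (hu l)
  have hvan := vanish (U := univ ×ˢ ball x r) (p := ((v, y) : (Fin m → ℂ) × (Fin t → ℂ))) hρ (jg_zero γ0)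
    (jg_analytic hγ) hδ hδρ t (fun u hu => by
      rw [hsum]
      exact ⟨mem_univ _, hδU u hu⟩) (jf f) (jf_analytic hf) hcon
  have hz : ∀ u : Fin t → ℂ, (∀ l, u l ∈ ball (0 : ℂ) δ) → ∑ i, v i * f i (y - ∑ l, γ (u l)) = 0 := by
    intro u hu
    have h1 := hvan u hu
    rw [hsum] at h1
    exact h1
  -- points with spanning derivatives
  have hspan := span_deriv γ0 hγ hδ hδρ hind
  obtain ⟨e, he, hes, -⟩ := Submodule.exists_fun_fin_finrank_span_eq ℂ (deriv γ '' ball 0 δ)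
  have hrank : Module.finrank ℂ (Submodule.span ℂ (deriv γ '' ball 0 δ)) = t := by
    rw [hspan, finrank_top, Module.finrank_fin_fun]
  replace hes := hes.trans hspan
  obtain ⟨e', he', hes'⟩ : ∃ e' : Fin t → Fin t → ℂ, (∀ i, e' i ∈ deriv γ '' ball 0 δ) ∧
      Submodule.span ℂ (Set.range e') = ⊤ := by
    refine ⟨fun i => e (Fin.cast hrank.symm i), fun i => he _, ?_⟩
    rw [← hes]
    congr 1
    ext w
    constructor
    · rintro ⟨i, rfl⟩
      exact ⟨_, rfl⟩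
    · rintro ⟨i, rfl⟩
      exact ⟨Fin.cast hrank i, rfl⟩
  choose u₀ hu₀ hu₀e using he'
  -- the map
  have hs : HasStrictFDerivAt (fun u : Fin t → ℂ => y - ∑ l, γ (u l))
      (-∑ l, (ContinuousLinearMap.proj (R := ℂ) (φ := fun _ : Fin t => ℂ) l).smulRight (e' l)) u₀ := by
    apply HasStrictFDerivAt.const_sub
    apply HasStrictFDerivAt.fun_sum
    intro l _
    have h1 : HasStrictDerivAt γ (deriv γ (u₀ l)) (u₀ l) := (hγ _ (ball_subset_ball hδρ (hu₀ l))).hasStrictDerivAt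
    have h2 : HasStrictFDerivAt (fun u : Fin t → ℂ => u l)
      (ContinuousLinearMap.proj (R := ℂ) (φ := fun _ : Fin t => ℂ) l) u₀ :=
      (ContinuousLinearMap.proj (R := ℂ) (φ := fun _ : Fin t => ℂ) l).hasStrictFDerivAt
    have h3 := h1.hasStrictFDerivAt.comp u₀ h2
    refine h3.congr_fderiv ?_
    ext w i
    simp [hu₀e]
  have hmap := hs.map_nhds_eq_of_surj (by
    rw [LinearMap.range_eq_top]
    intro w
    have hw : w ∈ Submodule.span ℂ (Set.range e') := by rw [hes']; trivial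
    obtain ⟨c, hc⟩ := (Submodule.mem_span_range_iff_exists_fun ℂ).1 hw
    refine ⟨-c, ?_⟩
    rw [← hc]
    simp)
  have hev : ∀ᶠ q in 𝓝 (y - ∑ l, γ (u₀ l)), ∑ i, v i * f i q = 0 := by
    rw [← hmap, Filter.eventually_map]
    have h1 : ∀ᶠ u in 𝓝 u₀, ∀ l, u l ∈ ball (0 : ℂ) δ := by
      rw [eventually_all]
      intro l
      exact (continuous_apply l).continuousAt.eventually_mem (isOpen_ball.mem_nhds (hu₀ l))
    filter_upwards [h1] with u hu
    exact hz u hu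
  have han : AnalyticOnNhd ℂ (fun q => ∑ i, v i * f i q) (ball x r) := by
    apply Finset.analyticOnNhd_fun_sum
    intro i _
    exact analyticOnNhd_const.mul (hf i)
  have hall := han.eqOn_zero_of_preconnected_of_eventuallyEq_zero (convex_ball x r).isPreconnected
    (hδU u₀ hu₀) hev
  obtain ⟨w, hw, hw0⟩ := hfi v hv
  exact hw0 (hall hw)

end Pool.Agent.H608.Me
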