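import Pool.Agent.H608.Ge.Ana

/-!
# Derivatives of a function along a curve
-/

set_option autoImplicit false

namespace Pool.Agent.H608.Me

open Set Filter Topology Metric

variable {V : Type*} [NormedAddCommGroup V] [NormedSpace ℂ V]

/-- the derivative in the parameter -/
noncomputable def Du (Ψ : V × ℂ → ℂ) : V × ℂ → ℂ := fun p => fderiv ℂ Ψ p (0, 1)

/-- the function along the curve -/
def alo (γ : ℂ → V) (G : V → ℂ) : V × ℂ → ℂ := fun p => G (p.1 - γ p.2)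

/-- the `m`th derivative along the curve, at its beginning -/
noncomputable def Lo (γ : ℂ → V) (m : ℕ) (G : V → ℂ) : V → ℂ := fun q => (Du^[m] (alo γ G)) (q, 0)

/-- iterated -/
noncomputable def Lk (γ : ℂ → V) : List ℕ → (V → ℂ) → V → ℂ
  | [], G => G
  | m :: κ, G => Lo γ m (Lk γ κ G)

/-- the domain -/
def dom (γ : ℂ → V) (ρ : ℝ) (U : Set V) : Set (V × ℂ) := {p | p.2 ∈ ball 0 ρ ∧ p.1 - γ p.2 ∈ U}

section

variable {γ : ℂ → V} {ρ : ℝ} {U : Set V} {G : V → ℂ}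

lemma isOpen_dom (hγ : AnalyticOnNhd ℂ γ (ball 0 ρ)) (hU : IsOpen U) : IsOpen (dom γ ρ U) := by
  have h1 : ContinuousOn (fun p : V × ℂ => p.1 - γ p.2) (Prod.snd ⁻¹' ball 0 ρ) := by
    apply continuousOn_fst.sub
    exact hγ.continuousOn.comp continuousOn_snd fun p hp => hp
  have h2 : IsOpen ((Prod.snd : V × ℂ → ℂ) ⁻¹' ball 0 ρ) := isOpen_ball.preimage continuous_snd
  exact h1.isOpen_inter_preimage h2 hU

lemma alo_analytic (hγ : AnalyticOnNhd ℂ γ (ball 0 ρ)) (hG : AnalyticOnNhd ℂ G U) :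
    AnalyticOnNhd ℂ (alo γ G) (dom γ ρ U) := by
  have h1 : AnalyticOnNhd ℂ (fun p : V × ℂ => p.1 - γ p.2) (dom γ ρ U) := by
    apply analyticOnNhd_fst.sub
    exact hγ.comp analyticOnNhd_snd fun p hp => hp.1
  exact hG.comp h1 fun p hp => hp.2

lemma Du_analytic {Ψ : V × ℂ → ℂ} {W : Set (V × ℂ)} (h : AnalyticOnNhd ℂ Ψ W) : AnalyticOnNhd ℂ (Du Ψ) W :=
  (ContinuousLinearMap.apply ℂ ℂ ((0, 1) : V × ℂ)).comp_analyticOnNhd h.fderiv

lemma iter_analytic {Ψ : V × ℂ → ℂ} {W : Set (V × ℂ)} (h : AnalyticOnNhd ℂ Ψ W) (m : ℕ) :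
    AnalyticOnNhd ℂ (Du^[m] Ψ) W := by
  induction m with
  | zero => exact h
  | succ m ih =>
    rw [Function.iterate_succ_apply']
    exact Du_analytic ih

lemma mem_dom_zero (hρ : 0 < ρ) (γ0 : γ 0 = 0) {q : V} (hq : q ∈ U) : (q, (0 : ℂ)) ∈ dom γ ρ U := by
  refine ⟨mem_ball_self hρ, ?_⟩
  show q - γ 0 ∈ U
  rw [γ0, sub_zero]
  exact hq

lemma Lo_analytic (hρ : 0 < ρ) (γ0 : γ 0 = 0) (hγ : AnalyticOnNhd ℂ γ (ball 0 ρ)) (hG : AnalyticOnNhd ℂ G U) (m : ℕ) :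
    AnalyticOnNhd ℂ (Lo γ m G) U := by
  have h1 : AnalyticOnNhd ℂ (fun q : V => (q, (0 : ℂ))) U := analyticOnNhd_id.prod analyticOnNhd_const
  exact (iter_analytic (alo_analytic hγ hG) m).comp h1 fun q hq => mem_dom_zero hρ γ0 hq

lemma Lk_analytic (hρ : 0 < ρ) (γ0 : γ 0 = 0) (hγ : AnalyticOnNhd ℂ γ (ball 0 ρ)) (hG : AnalyticOnNhd ℂ G U)
    (κ : List ℕ) : AnalyticOnNhd ℂ (Lk γ κ G) U := by
  induction κ with
  | nil => exact hG
  | cons m κ ih => exact Lo_analytic hρ γ0 hγ ih m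

lemma Lk_append (κ κ' : List ℕ) (G : V → ℂ) : Lk γ (κ ++ κ') G = Lk γ κ (Lk γ κ' G) := by
  induction κ with
  | nil => rfl
  | cons m κ ih =>
    show Lo γ m (Lk γ (κ ++ κ') G) = Lo γ m (Lk γ κ (Lk γ κ' G))
    rw [ih]

lemma Lo_zero (γ0 : γ 0 = 0) (G : V → ℂ) : Lo γ 0 G = G := by
  funext q
  show G (q - γ 0) = G q
  rw [γ0, sub_zero]

lemma Lk_pad (γ0 : γ 0 = 0) (N : ℕ) (κ : List ℕ) (G : V → ℂ) : Lk γ (List.replicate N 0 ++ κ) G = Lk γ κ G := by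
  induction N with
  | zero => rfl
  | succ N ih =>
    rw [List.replicate_succ, List.cons_append]
    show Lo γ 0 (Lk γ (List.replicate N 0 ++ κ) G) = _
    rw [Lo_zero γ0, ih]

lemma slice_deriv {Ψ : V × ℂ → ℂ} {W : Set (V × ℂ)} (h : AnalyticOnNhd ℂ Ψ W) {q : V} {u : ℂ} (hp : (q, u) ∈ W) :
    HasDerivAt (fun u => Ψ (q, u)) (Du Ψ (q, u)) u := by
  have h1 : HasFDerivAt Ψ (fderiv ℂ Ψ (q, u)) (q, u) := (h _ hp).differentiableAt.hasFDerivAt
  have h2 : HasDerivAt (fun u : ℂ => (q, u)) ((0 : V), (1 : ℂ)) u := (hasDerivAt_const u q).prodMk (hasDerivAt_id u)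
  exact h1.comp_hasDerivAt u h2

lemma slice_iter {Ψ : V × ℂ → ℂ} {W : Set (V × ℂ)} (h : AnalyticOnNhd ℂ Ψ W) {q : V} {δ : ℝ}
    (hp : ∀ u ∈ ball (0 : ℂ) δ, (q, u) ∈ W) (m : ℕ) :
    ∀ u ∈ ball (0 : ℂ) δ, deriv^[m] (fun u => Ψ (q, u)) u = (Du^[m] Ψ) (q, u) := by
  induction m with
  | zero => exact fun u _ => rfl
  | succ m ih =>
    intro u hu
    rw [Function.iterate_succ_apply', Function.iterate_succ_apply']
    have h2 : deriv^[m] (fun u => Ψ (q, u)) =ᶠ[𝓝 u] fun u => (Du^[m] Ψ) (q, u) := by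
      filter_upwards [isOpen_ball.mem_nhds hu] with w hw
      exact ih w hw
    rw [h2.deriv_eq]
    exact (slice_deriv (iter_analytic h m) (hp u hu)).deriv

/-- if all derivatives vanish then the function vanishes at the sums of points of the curve -/
theorem vanish {p : V} {δ : ℝ} (hρ : 0 < ρ) (γ0 : γ 0 = 0) (hγ : AnalyticOnNhd ℂ γ (ball 0 ρ)) (hδ : 0 < δ)
    (hδρ : δ ≤ ρ) : ∀ (N : ℕ), (∀ u : Fin N → ℂ, (∀ l, u l ∈ ball (0 : ℂ) δ) → p - ∑ l, γ (u l) ∈ U) →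
    ∀ G : V → ℂ, AnalyticOnNhd ℂ G U → (∀ κ, Lk γ κ G p = 0) →
    ∀ u : Fin N → ℂ, (∀ l, u l ∈ ball (0 : ℂ) δ) → G (p - ∑ l, γ (u l)) = 0 := by
  intro N
  induction N with
  | zero =>
    intro _ G _ hz u _
    rw [Fin.sum_univ_zero, sub_zero]
    exact hz []
  | succ N ih =>
    intro hU G hG hz u hu
    have hsn : ∀ (u' : Fin N → ℂ) (w : ℂ), p - ∑ l, γ ((Fin.snoc u' w : Fin (N + 1) → ℂ) l) =
        p - ∑ l, γ (u' l) - γ w := by
      intro u' w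
      rw [Fin.sum_univ_castSucc, Fin.snoc_last, sub_sub]
      congr 2
      exact Finset.sum_congr rfl fun l _ => by rw [Fin.snoc_castSucc]
    have hsnb : ∀ (u' : Fin N → ℂ) (w : ℂ), (∀ l, u' l ∈ ball (0 : ℂ) δ) → w ∈ ball (0 : ℂ) δ →
        ∀ l, (Fin.snoc u' w : Fin (N + 1) → ℂ) l ∈ ball (0 : ℂ) δ := by
      intro u' w h1 h2 l
      refine Fin.lastCases ?_ (fun l => ?_) l
      · rw [Fin.snoc_last]
        exact h2
      · rw [Fin.snoc_castSucc]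
        exact h1 l
    have hU' : ∀ u : Fin N → ℂ, (∀ l, u l ∈ ball (0 : ℂ) δ) → p - ∑ l, γ (u l) ∈ U := by
      intro u' hu'
      have h1 := hU (Fin.snoc u' 0) (hsnb u' 0 hu' (mem_ball_self hδ))
      rw [hsn, γ0, sub_zero] at h1
      exact h1
    have ih' := ih hU'
    obtain ⟨q, hq⟩ : ∃ q, q = p - ∑ l : Fin N, γ (u l.castSucc) := ⟨_, rfl⟩
    have hq1 : p - ∑ l, γ (u l) = q - γ (u (Fin.last N)) := by
      rw [hq, Fin.sum_univ_castSucc, sub_sub]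
    rw [hq1]
    have hqd : ∀ w ∈ ball (0 : ℂ) δ, (q, w) ∈ dom γ ρ U := by
      intro w hw
      refine ⟨ball_subset_ball hδρ hw, ?_⟩
      have h1 := hU (Fin.snoc (fun l : Fin N => u l.castSucc) w) (hsnb _ w (fun l => hu _) hw)
      rw [hsn] at h1
      show q - γ w ∈ U
      rw [hq]
      exact h1
    have han : AnalyticOnNhd ℂ (fun w => alo γ G (q, w)) (ball 0 δ) :=
      (alo_analytic hγ hG).comp (analyticOnNhd_const.prod analyticOnNhd_id) hqd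
    refine Pool.Agent.H608.Ge.eq_zero_of_derivs han (mem_ball_self hδ) (fun m => ?_) (u (Fin.last N)) (hu _)
    rw [iteratedDeriv_eq_iterate, slice_iter (alo_analytic hγ hG) hqd m 0 (mem_ball_self hδ)]
    have h2 := ih' (Lo γ m G) (Lo_analytic hρ γ0 hγ hG m) (fun κ => by
      have h3 := hz (κ ++ [m])
      rw [Lk_append] at h3
      exact h3) (fun l => u l.castSucc) (fun l => hu _)
    rw [← hq] at h2
    exact h2

end

end Pool.Agent.H608.Me
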