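import Mathlib

/-!
# Independent uniform choices
-/

set_option autoImplicit false

namespace Pool.Agent.H608.Me

open MeasureTheory Set
open scoped ENNReal

/-- all sequences of choices -/
abbrev Om (n : ℕ → ℕ) : Type := ∀ j : ℕ, Fin (n j + 1)

/-- the uniform probability measure -/
noncomputable def mu (n : ℕ → ℕ) : Measure (Om n) := Measure.addHaarMeasure ⊤

lemma mu_univ (n : ℕ → ℕ) : mu n univ = 1 := by
  have := Measure.addHaarMeasure_self (K₀ := (⊤ : TopologicalSpace.PositiveCompacts (Om n)))
  rw [TopologicalSpace.PositiveCompacts.coe_top] at this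
  exact this

instance (n : ℕ → ℕ) : (mu n).IsAddLeftInvariant := by
  unfold mu
  infer_instance

lemma single_add_eq (n : ℕ → ℕ) (i : ℕ) (a : Fin (n i + 1)) (ω : Om n) :
    (Pi.single i a : Om n) + ω = Function.update ω i (a + ω i) := by
  funext j
  rw [Pi.add_apply]
  by_cases h : j = i
  · subst h
    rw [Pi.single_eq_same, Function.update_self]
  · rw [Pi.single_eq_of_ne h, Function.update_of_ne h, zero_add]

open Classical in
/-- if for all choices of the other coordinates at most `c` choices of the coordinate `i` are in `B`, then `B` is small -/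
theorem resample (n : ℕ → ℕ) {B : Set (Om n)} (hB : MeasurableSet B) (i c : ℕ)
    (h : ∀ ω : Om n, ∀ S : Finset (Fin (n i + 1)), (∀ a ∈ S, Function.update ω i a ∈ B) → S.card ≤ c) :
    mu n B ≤ (c : ℝ≥0∞) / ((n i + 1 : ℕ) : ℝ≥0∞) := by
  have h1 : ∀ a : Fin (n i + 1), mu n ((fun ω => (Pi.single i a : Om n) + ω) ⁻¹' B) = mu n B :=
    fun a => measure_preimage_add _ _ _
  have hmeas : ∀ a : Fin (n i + 1), MeasurableSet ((fun ω => (Pi.single i a : Om n) + ω) ⁻¹' B) :=
    fun a => hB.preimage (measurable_const_add _)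
  have h2 : ∑ a : Fin (n i + 1), mu n ((fun ω => (Pi.single i a : Om n) + ω) ⁻¹' B) =
      ((n i + 1 : ℕ) : ℝ≥0∞) * mu n B := by
    rw [Finset.sum_congr rfl fun a _ => h1 a, Finset.sum_const, Finset.card_univ, Fintype.card_fin, nsmul_eq_mul]
  have h3 : ∑ a : Fin (n i + 1), mu n ((fun ω => (Pi.single i a : Om n) + ω) ⁻¹' B) ≤ c := by
    calc ∑ a : Fin (n i + 1), mu n ((fun ω => (Pi.single i a : Om n) + ω) ⁻¹' B)
        = ∑ a : Fin (n i + 1), ∫⁻ ω, ((fun ω => (Pi.single i a : Om n) + ω) ⁻¹' B).indicator 1 ω ∂(mu n) := by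
          refine Finset.sum_congr rfl fun a _ => ?_
          rw [lintegral_indicator_one (hmeas a)]
      _ = ∫⁻ ω, ∑ a : Fin (n i + 1), ((fun ω => (Pi.single i a : Om n) + ω) ⁻¹' B).indicator 1 ω ∂(mu n) := by
          rw [lintegral_finsetSum]
          intro a _
          exact measurable_one.indicator (hmeas a)
      _ ≤ ∫⁻ _, (c : ℝ≥0∞) ∂(mu n) := by
          apply lintegral_mono
          intro ω
          simp only
          obtain ⟨S, hS⟩ : ∃ S : Finset (Fin (n i + 1)), S = Finset.univ.filter fun a => (Pi.single i a : Om n) + ω ∈ B :=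
            ⟨_, rfl⟩
          have h4 : ∑ a : Fin (n i + 1), ((fun ω => (Pi.single i a : Om n) + ω) ⁻¹' B).indicator (1 : Om n → ℝ≥0∞) ω =
              (S.card : ℝ≥0∞) := by
            rw [hS, Finset.card_filter]
            push_cast
            refine Finset.sum_congr rfl fun a _ => ?_
            by_cases ha : (Pi.single i a : Om n) + ω ∈ B
            · rw [if_pos ha, indicator_of_mem (by exact ha)]
              rfl
            · rw [if_neg ha, indicator_of_notMem (by exact ha)]
          rw [h4]
          have h5 : (S.image fun a => a + ω i).card = S.card :=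
            Finset.card_image_of_injective _ (add_left_injective (ω i))
          rw [← h5]
          exact_mod_cast h ω _ (fun a' ha' => by
            obtain ⟨a, ha, rfl⟩ := Finset.mem_image.1 ha'
            rw [hS, Finset.mem_filter, single_add_eq] at ha
            exact ha.2)
      _ = c := by rw [lintegral_const, mu_univ, mul_one]
  rw [h2] at h3
  rw [ENNReal.le_div_iff_mul_le (Or.inl (by simp)) (Or.inl (ENNReal.natCast_ne_top _)), mul_comm]
  exact h3

end Pool.Agent.H608.Me
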