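import Mathlib

/-!
# A function with a large derivative has few small values
-/

set_option autoImplicit false

namespace Pool.Agent.H608.Me

open Finset Polynomial

/-- Rolle's theorem for derivatives of higher order -/
lemma rolle_many : ∀ (m : ℕ) (f : ℕ → ℝ → ℝ) (a b : ℝ),
    (∀ l < m, ∀ u ∈ Set.Icc a b, HasDerivAt (f l) (f (l + 1) u) u) →
    ∀ t : Fin (m + 1) → ℝ, StrictMono t → (∀ i, t i ∈ Set.Icc a b) → (∀ i, f 0 (t i) = 0) →
    ∃ ξ ∈ Set.Icc a b, f m ξ = 0 := by
  intro m
  induction m with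
  | zero => exact fun f a b _ t _ ht h0 => ⟨t 0, ht 0, h0 0⟩
  | succ m ih =>
    intro f a b hd t hmono ht h0
    have h1 : ∀ i : Fin (m + 1), ∃ c ∈ Set.Ioo (t i.castSucc) (t i.succ), f 1 c = 0 := by
      intro i
      have hsub : Set.Icc (t i.castSucc) (t i.succ) ⊆ Set.Icc a b :=
        Set.Icc_subset_Icc (ht _).1 (ht _).2
      apply exists_hasDerivAt_eq_zero (f := f 0) (hmono i.castSucc_lt_succ)
      · intro u hu
        exact (hd 0 (Nat.succ_pos m) u (hsub hu)).continuousAt.continuousWithinAt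
      · rw [h0, h0]
      · intro u hu
        exact hd 0 (Nat.succ_pos m) u (hsub (Set.Ioo_subset_Icc_self hu))
    choose c hc hc0 using h1
    refine ih (fun l => f (l + 1)) a b (fun l hl u hu => hd (l + 1) (by omega) u hu) c ?_ ?_ hc0
    · rw [Fin.strictMono_iff_lt_succ]
      intro i
      have h2 := (hc i.castSucc).2
      have h3 := (hc i.succ).1
      have h4 : i.castSucc.succ = i.succ.castSucc := rfl
      rw [h4] at h2
      exact h2.trans h3
    · intro i
      exact ⟨(ht _).1.trans (hc i).1.le, (hc i).2.le.trans (ht _).2⟩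

lemma iter_deriv_const {m : ℕ} {P : ℝ[X]} (hP : P.natDegree ≤ m) (x : ℝ) :
    (derivative^[m] P).eval x = m.factorial * P.coeff m := by
  have h1 : (derivative^[m] P).natDegree = 0 := by
    have := Polynomial.natDegree_iterate_derivative P m
    omega
  rw [Polynomial.eq_C_of_natDegree_eq_zero h1, Polynomial.eval_C, Polynomial.coeff_iterate_derivative, zero_add,
    Nat.descFactorial_self, nsmul_eq_mul]

/-- among `m + 1` separated points there is one at which the function is not small -/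
lemma exists_large {m : ℕ} {f : ℕ → ℝ → ℝ} {a b q σ : ℝ}
    (hd : ∀ l < m, ∀ u ∈ Set.Icc a b, HasDerivAt (f l) (f (l + 1) u) u)
    (hq : ∀ u ∈ Set.Icc a b, q ≤ |f m u|) (hσ : 0 < σ)
    {t : Fin (m + 1) → ℝ} (hmono : StrictMono t) (ht : ∀ i, t i ∈ Set.Icc a b)
    (hsep : ∀ i j, i ≠ j → σ ≤ |t i - t j|) :
    ∃ i, q * σ ^ m ≤ (m + 1).factorial * |f 0 (t i)| := by
  by_contra hcon
  push Not at hcon
  obtain ⟨B, hB⟩ : ∃ B : Fin (m + 1) → ℝ[X],
      B = fun i => ∏ j ∈ univ.erase i, (C ((t i - t j)⁻¹) * (X - C (t j))) := ⟨_, rfl⟩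
  have hB1 : ∀ i, (B i).eval (t i) = 1 := by
    intro i
    rw [hB]
    simp only
    rw [eval_prod]
    apply prod_eq_one
    intro j hj
    have hne : t i - t j ≠ 0 := sub_ne_zero.2 fun h => (ne_of_mem_erase hj) (hmono.injective h).symm
    rw [eval_mul, eval_C, eval_sub, eval_X, eval_C]
    exact inv_mul_cancel₀ hne
  have hB0 : ∀ i l, i ≠ l → (B i).eval (t l) = 0 := by
    intro i l hil
    rw [hB]
    simp only
    rw [eval_prod]
    apply prod_eq_zero (mem_erase.2 ⟨hil.symm, mem_univ l⟩)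
    rw [eval_mul, eval_C, eval_sub, eval_X, eval_C, sub_self, mul_zero]
  have hdeg1 : ∀ i j, (C ((t i - t j)⁻¹) * (X - C (t j)) : ℝ[X]).natDegree ≤ 1 := by
    intro i j
    refine (natDegree_C_mul_le _ _).trans ?_
    rw [natDegree_X_sub_C]
  have hcard : ∀ i : Fin (m + 1), (univ.erase i).card = m := by
    intro i
    rw [card_erase_of_mem (mem_univ i), card_univ, Fintype.card_fin]
    rfl
  have hBdeg : ∀ i, (B i).natDegree ≤ m := by
    intro i
    rw [hB]
    refine (natDegree_prod_le _ _).trans ?_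
    refine (sum_le_sum fun j _ => hdeg1 i j).trans ?_
    rw [sum_const, hcard, smul_eq_mul, mul_one]
  have hBcoeff : ∀ i, |(B i).coeff m| * σ ^ m ≤ 1 := by
    intro i
    have h1 := coeff_prod_of_natDegree_le (s := univ.erase i) (f := fun j => (C ((t i - t j)⁻¹) * (X - C (t j)) : ℝ[X]))
      1 (fun j _ => hdeg1 i j)
    rw [hcard, mul_one] at h1
    have h2 : (B i).coeff m = ∏ j ∈ univ.erase i, (t i - t j)⁻¹ := by
      rw [hB]
      simp only
      rw [h1]
      refine prod_congr rfl fun j _ => ?_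
      rw [coeff_C_mul, coeff_sub, coeff_X_one, coeff_C_succ, sub_zero, mul_one]
    rw [h2, abs_prod]
    have h3 : (∏ j ∈ univ.erase i, |(t i - t j)⁻¹|) * σ ^ m = ∏ j ∈ univ.erase i, (|(t i - t j)⁻¹| * σ) := by
      rw [prod_mul_distrib, prod_const, hcard]
    rw [h3]
    apply prod_le_one
    · intro j _
      positivity
    · intro j hj
      have h4 := hsep i j (ne_of_mem_erase hj).symm
      have h5 : 0 < |t i - t j| := hσ.trans_le h4
      rw [abs_inv, inv_mul_le_iff₀ h5, mul_one]
      exact h4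
  obtain ⟨L, hL⟩ : ∃ L : ℝ[X], L = ∑ i, C (f 0 (t i)) * B i := ⟨_, rfl⟩
  have hLdeg : L.natDegree ≤ m := by
    rw [hL]
    apply natDegree_sum_le_of_forall_le
    intro i _
    exact (natDegree_C_mul_le _ _).trans (hBdeg i)
  have hLt : ∀ l, L.eval (t l) = f 0 (t l) := by
    intro l
    rw [hL, eval_finsetSum, sum_eq_single l]
    · rw [eval_mul, eval_C, hB1, mul_one]
    · intro i _ hil
      rw [eval_mul, hB0 i l hil, mul_zero]
    · intro h
      exact absurd (mem_univ l) h
  obtain ⟨ξ, hξ, hξ0⟩ := rolle_many m (fun l u => f l u - (derivative^[l] L).eval u) a b (by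
    intro l hl u hu
    have h1 := Polynomial.hasDerivAt (derivative^[l] L) u
    rw [← Function.iterate_succ_apply' (f := (derivative : ℝ[X] → ℝ[X]))] at h1
    exact (hd l hl u hu).sub h1) t hmono ht (by
    intro i
    rw [Function.iterate_zero_apply, hLt, sub_self])
  rw [iter_deriv_const hLdeg, sub_eq_zero] at hξ0
  have h6 := hq ξ hξ
  rw [hξ0, abs_mul, Nat.abs_cast] at h6
  have h7 : |L.coeff m| * σ ^ m ≤ ∑ i, |f 0 (t i)| := by
    have h8 : L.coeff m = ∑ i, f 0 (t i) * (B i).coeff m := by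
      rw [hL, finsetSum_coeff]
      exact sum_congr rfl fun i _ => coeff_C_mul _
    have hσm : 0 ≤ σ ^ m := by positivity
    calc |L.coeff m| * σ ^ m ≤ (∑ i, |f 0 (t i) * (B i).coeff m|) * σ ^ m := by
          rw [h8]
          exact mul_le_mul_of_nonneg_right (abs_sum_le_sum_abs _ _) hσm
      _ = ∑ i, |f 0 (t i)| * (|(B i).coeff m| * σ ^ m) := by
          rw [sum_mul]
          exact sum_congr rfl fun i _ => by rw [abs_mul]; ring
      _ ≤ ∑ i, |f 0 (t i)| := by
          refine sum_le_sum fun i _ => ?_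
          exact mul_le_of_le_one_right (abs_nonneg _) (hBcoeff i)
  have hfac : (0 : ℝ) < m.factorial := by exact_mod_cast m.factorial_pos
  have hfac1 : (0 : ℝ) < (m + 1).factorial := by exact_mod_cast (m + 1).factorial_pos
  have h9 : q * σ ^ m ≤ m.factorial * ∑ i, |f 0 (t i)| := by
    have hσm : 0 ≤ σ ^ m := by positivity
    calc q * σ ^ m ≤ (m.factorial * |L.coeff m|) * σ ^ m := mul_le_mul_of_nonneg_right h6 hσm
      _ = m.factorial * (|L.coeff m| * σ ^ m) := by ring
      _ ≤ _ := mul_le_mul_of_nonneg_left h7 hfac.le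
  have h10 : ∑ i : Fin (m + 1), |f 0 (t i)| < ∑ i : Fin (m + 1), q * σ ^ m / (m + 1).factorial := by
    apply sum_lt_sum_of_nonempty univ_nonempty
    intro i _
    rw [lt_div_iff₀ hfac1, mul_comm]
    exact hcon i
  rw [sum_const, card_univ, Fintype.card_fin, nsmul_eq_mul] at h10
  have h11 : ((m + 1).factorial : ℝ) = (m + 1 : ℕ) * m.factorial := by
    rw [Nat.factorial_succ]
    push_cast
    ring
  have h12 := mul_lt_mul_of_pos_left h10 hfac
  have h13 : (m.factorial : ℝ) * (((m + 1 : ℕ) : ℝ) * (q * σ ^ m / ((m + 1).factorial : ℝ))) = q * σ ^ m := by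
    rw [h11]
    have : ((m + 1 : ℕ) : ℝ) ≠ 0 := by positivity
    field_simp
  rw [h13] at h12
  linarith

end Pool.Agent.H608.Me
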