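import Pool.Agent.H608.Me.MeaMain
import Pool.Agent.H608.Ge.Elim

/-!
# Numbers given by series: measures of algebraic independence
-/

set_option autoImplicit false

namespace Pool.Agent.H608.Me

open MeasureTheory Filter Topology Metric
open Pool.Agent.H608.Ge

open Classical in
/-- the main theorem for a countable family -/
theorem meaCount {ι : Type} [Countable ι] [Nonempty ι] (S : ι → MSys) {A : Set ℕ} (hA : PolyDense A) {ε : ℝ}
    (hε : 0 < ε) {M : ℕ} (hM : 1 ≤ M) (hSM : ∀ s, 4 * (S s).C ≤ (S s).r / 2 * M) :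
    ∃ E : Set ℕ, E.Infinite ∧ (∀ k ∈ E, k ∈ A ∧ M ≤ k) ∧
      (∀ K : ℕ, 16 ≤ K → (({k : ℕ | k ∈ E ∧ k ≤ K}.ncard : ℕ) : ℝ) ≤ ε * Real.log (Real.log K)) ∧
      ∀ s, ∃ z : Fin (S s).t → ℝ,
        (∀ j, Tendsto (fun N : ℕ => (S s).x j - ∑ k ∈ (Finset.range N).filter (· ∈ E), (S s).τ k j) atTop (𝓝 (z j))) ∧
        (∀ j, |z j - (S s).x j| < (S s).r) ∧
        ∃ c : ℝ, 0 < c ∧ ∀ h : ℕ, 2 ≤ h → ∀ v : Fin (S s).m → ℤ, v ≠ 0 → (∀ j, |v j| ≤ h) →
          (h : ℝ) ^ (-c) ≤ ‖∑ j, (v j : ℂ) * (S s).f j (rp z)‖ := by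
  obtain ⟨φ, hφ⟩ := exists_surjective_nat ι
  obtain ⟨E, z, h1, h2, h3, h4, h5, h6⟩ := meaMain (fun n => S (φ n)) hA hε hM fun n => hSM (φ n)
  refine ⟨E, h1, h2, h3, fun s => ?_⟩
  obtain ⟨n, rfl⟩ := hφ s
  exact ⟨z n, h4 n, h5 n, h6 n⟩

section Bridge

variable {t : ℕ} (o : Fin t → Ser)

lemma ser_bound (o : Ser) : ∃ c : ℝ, 0 ≤ c ∧ ∀ k : ℕ, 1 ≤ k → |o.τ k| ≤ c / k := by
  have h1 : o.g =O[𝓝 0] fun w => w := by
    have h2 : DifferentiableAt ℂ o.g 0 := o.gd.self_of_nhds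
    have h3 := h2.isBigO_sub
    refine (h3.congr_left fun w => ?_).trans (Asymptotics.isBigO_of_le _ fun w => ?_)
    · rw [o.g0, sub_zero]
    · rw [sub_zero]
  obtain ⟨c, hc⟩ := h1.bound
  obtain ⟨K, hK⟩ := eventually_atTop.1 (((tendsto_nhds_of_tendsto_nhdsWithin tendsto_one_div_c).eventually hc).and o.rep)
  refine ⟨max c 0 + ∑ k ∈ Finset.range K, |o.τ k| * k, by positivity, fun k hk => ?_⟩
  have hk0 : (0 : ℝ) < k := by exact_mod_cast hk
  rw [le_div_iff₀ hk0]
  by_cases hkK : K ≤ k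
  · obtain ⟨h6, h7⟩ := hK k hkK
    have h8 : |o.τ k| * k ≤ max c 0 := by
      have h9 : |o.τ k| = ‖o.g (1 / (k : ℂ))‖ := by
        rw [← h7, Complex.norm_real, Real.norm_eq_abs]
      rw [h9]
      rw [norm_div, norm_one, Complex.norm_natCast, mul_one_div, le_div_iff₀ hk0] at h6
      exact h6.trans (le_max_left _ _)
    have : 0 ≤ ∑ k ∈ Finset.range K, |o.τ k| * k := Finset.sum_nonneg fun i _ => by positivity
    linarith
  · have h6 : |o.τ k| * k ≤ ∑ k ∈ Finset.range K, |o.τ k| * k :=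
      Finset.single_le_sum (f := fun i : ℕ => |o.τ i| * i) (fun i _ => by positivity) (Finset.mem_range.2 (not_le.1 hkK))
    have : 0 ≤ max c 0 := le_max_right _ _
    linarith

lemma sers_bound : ∃ c : ℝ, 0 ≤ c ∧ ∀ k : ℕ, 1 ≤ k → ‖rp fun j => (o j).τ k‖ ≤ c / k := by
  choose c hc0 hc using fun j => ser_bound (o j)
  refine ⟨∑ j, c j, Finset.sum_nonneg fun j _ => hc0 j, fun k hk => ?_⟩
  have hk0 : (0 : ℝ) < k := by exact_mod_cast hk
  apply pi_apply_le (div_nonneg (Finset.sum_nonneg fun j _ => hc0 j) hk0.le)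
  intro j
  unfold rp
  rw [Complex.norm_real, Real.norm_eq_abs]
  refine (hc j k hk).trans ?_
  apply div_le_div_of_nonneg_right _ hk0.le
  exact Finset.single_le_sum (f := c) (fun i _ => hc0 i) (Finset.mem_univ j)

/-- the bound -/
noncomputable def cB : ℝ := Classical.choose (sers_bound o)

lemma cB0 : 0 ≤ cB o := (Classical.choose_spec (sers_bound o)).1

lemma cBb : ∀ k : ℕ, 1 ≤ k → ‖rp fun j => (o j).τ k‖ ≤ cB o / k := (Classical.choose_spec (sers_bound o)).2

lemma exists_rho : ∃ ρ : ℝ, 0 < ρ ∧ AnalyticOnNhd ℂ (fun w : ℂ => fun j => (o j).g w) (ball 0 ρ) := by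
  have h2 : ∀ᶠ w in 𝓝 (0 : ℂ), ∀ j, DifferentiableAt ℂ (o j).g w := by
    rw [eventually_all]
    exact fun j => (o j).gd
  obtain ⟨ρ, hρ, h3⟩ := Metric.eventually_nhds_iff_ball.1 h2
  refine ⟨ρ, hρ, AnalyticOnNhd.pi fun j => ?_⟩
  apply DifferentiableOn.analyticOnNhd _ isOpen_ball
  exact fun w hw => (h3 w hw j).differentiableWithinAt

variable {o}

lemma cind_of_linInd (h : LinInd o) : CInd fun w : ℂ => fun j => (o j).g w := by
  intro c hc hz
  -- the real part and the imaginary part of the coefficients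
  have hrep : ∀ᶠ k : ℕ in atTop, ∀ j, ((o j).τ k : ℂ) = (o j).g (1 / (k : ℂ)) := by
    rw [eventually_all]
    exact fun j => (o j).rep
  have key : ∀ᶠ k : ℕ in atTop, ∑ j, c j * ((o j).τ k : ℂ) = 0 := by
    filter_upwards [hrep, (tendsto_nhds_of_tendsto_nhdsWithin tendsto_one_div_c).eventually hz] with k h1 h2
    rw [← h2]
    exact Finset.sum_congr rfl fun j _ => by rw [h1 j]
  have part : ∀ a : Fin t → ℝ, (∀ᶠ k : ℕ in atTop, ∑ j, a j * (o j).τ k = 0) → a = 0 := by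
    intro a ha
    by_contra hne
    apply h a hne
    have h1 : AnalyticAt ℂ (gc o a) 0 := Complex.analyticAt_iff_eventually_differentiableAt.2 (gc_d o a)
    rcases h1.eventually_eq_zero_or_eventually_ne_zero with h2 | h2
    · exact h2
    · exfalso
      have h3 := tendsto_one_div_c.eventually h2
      obtain ⟨k, hk1, hk2, hk3⟩ := (h3.and (ha.and (gc_rep o a))).exists
      apply hk1
      rw [← hk3, hk2]
      simp
  apply hc
  have hre : (fun j => (c j).re) = 0 := part _ (by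
    filter_upwards [key] with k hk
    have h1 := congrArg Complex.re hk
    rw [Complex.re_sum] at h1
    simpa using h1)
  have him : (fun j => (c j).im) = 0 := part _ (by
    filter_upwards [key] with k hk
    have h1 := congrArg Complex.im hk
    rw [Complex.im_sum] at h1
    simpa using h1)
  funext j
  exact Complex.ext (congrFun hre j) (congrFun him j)

/-- the system -/
noncomputable def mkSys (h : LinInd o) (r : ℝ) (hr : 0 < r) {m : ℕ} (f : Fin m → (Fin t → ℂ) → ℂ)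
    (hf : ∀ i, AnalyticOnNhd ℂ (f i) (ball (rp fun j => (o j).x) r))
    (hfi : ∀ v : Fin m → ℂ, v ≠ 0 → ∃ w ∈ ball (rp fun j => (o j).x) r, ∑ i, v i * f i w ≠ 0) : MSys where
  t := t
  m := m
  x := fun j => (o j).x
  τ := fun k j => (o j).τ k
  γ := fun w j => (o j).g w
  ρ := Classical.choose (exists_rho o)
  r := r
  C := cB o
  hρ := (Classical.choose_spec (exists_rho o)).1
  hr := hr
  γ0 := funext fun j => (o j).g0
  hγ := (Classical.choose_spec (exists_rho o)).2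
  ind := cind_of_linInd h
  rep := by
    have hrep : ∀ᶠ k : ℕ in atTop, ∀ j, ((o j).τ k : ℂ) = (o j).g (1 / (k : ℂ)) := by
      rw [eventually_all]
      exact fun j => (o j).rep
    filter_upwards [hrep] with k hk
    exact funext hk
  hC := cBb o
  f := f
  hf := hf
  hfi := hfi

end Bridge

/-- entire functions -/
structure Ent where
  t : ℕ
  m : ℕ
  f : Fin m → (Fin t → ℂ) → ℂ
  hf : ∀ i, AnalyticOnNhd ℂ (f i) Set.univ
  hfi : ∀ v : Fin m → ℂ, v ≠ 0 → ∃ w, ∑ i, v i * f i w ≠ 0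

/-- the system for entire functions -/
noncomputable def entSys (o : ℕ → Ser) (h : ∀ t, LinInd fun j : Fin t => o j) (F : Ent) : MSys :=
  mkSys (h F.t) (8 * cB (fun j : Fin F.t => o j) + 1) (by have := cB0 (fun j : Fin F.t => o j); linarith) F.f
    (fun i => (F.hf i).mono (Set.subset_univ _)) (fun v hv => by
      by_contra hcon
      push Not at hcon
      obtain ⟨w, hw⟩ := F.hfi v hv
      apply hw
      have h1 : AnalyticOnNhd ℂ (fun w => ∑ i, v i * F.f i w) Set.univ := by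
        apply Finset.analyticOnNhd_fun_sum
        intro i _
        exact analyticOnNhd_const.mul (F.hf i)
      have h2 := h1.eqOn_zero_of_preconnected_of_eventuallyEq_zero isPreconnected_univ
        (Set.mem_univ (rp fun j : Fin F.t => (o j).x)) (by
          have hr : 0 < 8 * cB (fun j : Fin F.t => o j) + 1 := by
            have := cB0 (fun j : Fin F.t => o j)
            linarith
          filter_upwards [ball_mem_nhds (rp fun j : Fin F.t => (o j).x) hr] with w hw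
          exact hcon w hw)
      exact h2 (Set.mem_univ w))

section Poly

variable (t d : ℕ)

/-- the exponents -/
noncomputable def expo : Finset (Fin t →₀ ℕ) := Finset.univ.finsupp fun _ => Finset.range (d + 1)

/-- numbering -/
noncomputable def num : Fin (expo t d).card ≃ expo t d := (expo t d).equivFin.symm

/-- monomials -/
noncomputable def mono (i : Fin (expo t d).card) (w : Fin t → ℂ) : ℂ := ∏ j, w j ^ ((num t d i : Fin t →₀ ℕ) j)

lemma mono_analytic (i : Fin (expo t d).card) : AnalyticOnNhd ℂ (mono t d i) Set.univ := by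
  unfold mono
  apply Finset.analyticOnNhd_fun_prod
  intro j _
  exact ((ContinuousLinearMap.proj (R := ℂ) (φ := fun _ : Fin t => ℂ) j).analyticOnNhd _).pow _

lemma mono_ind (v : Fin (expo t d).card → ℂ) (hv : v ≠ 0) : ∃ w, ∑ i, v i * mono t d i w ≠ 0 := by
  by_contra hcon
  push Not at hcon
  obtain ⟨P, hP⟩ : ∃ P : MvPolynomial (Fin t) ℂ, P = ∑ i, MvPolynomial.monomial (num t d i : Fin t →₀ ℕ) (v i) := ⟨_, rfl⟩
  have h1 : P = 0 := by
    apply MvPolynomial.funext
    intro w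
    rw [map_zero, hP, map_sum, ← hcon w]
    refine Finset.sum_congr rfl fun i _ => ?_
    rw [MvPolynomial.eval_monomial, Finsupp.prod_fintype _ _ (fun j => pow_zero _)]
    rfl
  obtain ⟨i, hi⟩ := Function.ne_iff.1 hv
  apply hi
  have h2 := congrArg (MvPolynomial.coeff (num t d i : Fin t →₀ ℕ)) h1
  rw [hP, MvPolynomial.coeff_sum, MvPolynomial.coeff_zero, Finset.sum_eq_single i] at h2
  · rw [MvPolynomial.coeff_monomial, if_pos rfl] at h2
    exact h2
  · intro j _ hji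
    rw [MvPolynomial.coeff_monomial, if_neg]
    intro h3
    exact hji ((num t d).injective (Subtype.ext h3))
  · intro h
    exact absurd (Finset.mem_univ i) h

/-- polynomials -/
noncomputable def polE : Ent where
  t := t
  m := (expo t d).card
  f := mono t d
  hf := mono_analytic t d
  hfi := mono_ind t d

variable {t d}

lemma support_sub {P : MvPolynomial (Fin t) ℤ} (hP : P.totalDegree ≤ d) : P.support ⊆ expo t d := by
  intro α hα
  unfold expo
  rw [Finset.mem_finsupp_iff]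
  refine ⟨Finset.subset_univ _, fun i _ => ?_⟩
  rw [Finset.mem_range]
  have h1 := MvPolynomial.le_totalDegree hα
  have h2 : α i ≤ α.sum fun _ e => e := by
    rw [Finsupp.sum_fintype _ _ (fun _ => rfl)]
    exact Finset.single_le_sum (f := fun i => α i) (fun _ _ => Nat.zero_le _) (Finset.mem_univ i)
  omega

lemma eval_mono {P : MvPolynomial (Fin t) ℤ} (hP : P.totalDegree ≤ d) (z : Fin t → ℝ) :
    ∑ i, ((P.coeff (num t d i : Fin t →₀ ℕ) : ℤ) : ℂ) * mono t d i (rp z) = ((MvPolynomial.aeval z P : ℝ) : ℂ) := by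
  have h1 : ∑ i, ((P.coeff (num t d i : Fin t →₀ ℕ) : ℤ) : ℂ) * mono t d i (rp z) =
      ∑ α : expo t d, ((P.coeff (α : Fin t →₀ ℕ) : ℤ) : ℂ) * ∏ j, (rp z j) ^ ((α : Fin t →₀ ℕ) j) :=
    (num t d).sum_comp fun α : expo t d => ((P.coeff (α : Fin t →₀ ℕ) : ℤ) : ℂ) * ∏ j, (rp z j) ^ ((α : Fin t →₀ ℕ) j)
  rw [h1, Finset.sum_coe_sort (expo t d) fun α : Fin t →₀ ℕ => ((P.coeff α : ℤ) : ℂ) * ∏ j, (rp z j) ^ (α j)]
  rw [MvPolynomial.aeval_def, MvPolynomial.eval₂_eq']
  push_cast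
  rw [← Finset.sum_subset (support_sub hP)]
  · refine Finset.sum_congr rfl fun α _ => ?_
    unfold rp
    simp
  · intro α _ hα
    rw [MvPolynomial.notMem_support_iff.1 hα]
    simp

end Poly

open Classical in
/-- **measures of algebraic independence** for the numbers given by the series, and lower bounds for linear forms in
the values of entire functions at them -/
theorem serMea (o : ℕ → Ser) (ho : ∀ t, LinInd fun j : Fin t => o j) (F : ℕ → Ent) {A : Set ℕ} (hA : PolyDense A)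
    {ε : ℝ} (hε : 0 < ε) (M : ℕ) :
    ∃ (E : Set ℕ) (z : ℕ → ℝ), E.Infinite ∧ (∀ k ∈ E, k ∈ A ∧ M ≤ k ∧ 1 ≤ k) ∧
      (∀ K : ℕ, 16 ≤ K → (({k : ℕ | k ∈ E ∧ k ≤ K}.ncard : ℕ) : ℝ) ≤ ε * Real.log (Real.log K)) ∧
      (∀ j, Tendsto (fun N : ℕ => (o j).x - ∑ k ∈ (Finset.range N).filter (· ∈ E), (o j).τ k) atTop (𝓝 (z j))) ∧
      (∀ t d : ℕ, ∃ c : ℝ, 0 < c ∧ ∀ h : ℕ, 2 ≤ h → ∀ P : MvPolynomial (Fin t) ℤ, P ≠ 0 → P.totalDegree ≤ d →
        (∀ α, |P.coeff α| ≤ h) → (h : ℝ) ^ (-c) ≤ |MvPolynomial.aeval (fun i : Fin t => z i) P|) ∧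
      ∀ n, ∃ c : ℝ, 0 < c ∧ ∀ h : ℕ, 2 ≤ h → ∀ v : Fin (F n).m → ℤ, v ≠ 0 → (∀ j, |v j| ≤ h) →
        (h : ℝ) ^ (-c) ≤ ‖∑ j, (v j : ℂ) * (F n).f j (rp fun i : Fin (F n).t => z i)‖ := by
  obtain ⟨E, h1, h2, h3, h4⟩ := meaCount (ι := (ℕ × ℕ) ⊕ ℕ)
    (Sum.elim (fun p => entSys o ho (polE p.1 p.2)) fun n => entSys o ho (F n)) hA hε
    (M := M + 1) (by omega) (by
      have key : ∀ G : Ent, 4 * (entSys o ho G).C ≤ (entSys o ho G).r / 2 * ((M + 1 : ℕ) : ℝ) := by
        intro G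
        have h0 := cB0 (fun j : Fin G.t => o j)
        show 4 * cB (fun j : Fin G.t => o j) ≤ (8 * cB (fun j : Fin G.t => o j) + 1) / 2 * ((M + 1 : ℕ) : ℝ)
        have h1 : (1 : ℝ) ≤ ((M + 1 : ℕ) : ℝ) := by exact_mod_cast (by omega : 1 ≤ M + 1)
        nlinarith
      rintro (p | n)
      · exact key _
      · exact key _)
  choose z hz1 _ hz3 using h4
  obtain ⟨y, hy⟩ : ∃ y : ℕ → ℝ, y = fun j => z (Sum.inl (j + 1, 0)) ⟨j, Nat.lt_succ_self j⟩ := ⟨_, rfl⟩
  have hyl : ∀ j, Tendsto (fun N : ℕ => (o j).x - ∑ k ∈ (Finset.range N).filter (· ∈ E), (o j).τ k) atTop (𝓝 (y j)) := by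
    intro j
    rw [hy]
    exact hz1 (Sum.inl (j + 1, 0)) ⟨j, Nat.lt_succ_self j⟩
  have hzy1 : ∀ (t d : ℕ), z (Sum.inl (t, d)) = fun i : Fin t => y i := by
    intro t d
    funext i
    exact tendsto_nhds_unique (hz1 (Sum.inl (t, d)) i) (hyl i)
  have hzy2 : ∀ n : ℕ, z (Sum.inr n) = fun i : Fin (F n).t => y i := by
    intro n
    funext i
    exact tendsto_nhds_unique (hz1 (Sum.inr n) i) (hyl i)
  refine ⟨E, y, h1, fun k hk => ⟨(h2 k hk).1, by have := (h2 k hk).2; omega, by have := (h2 k hk).2; omega⟩, h3, hyl,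
    fun t d => ?_, fun n => ?_⟩
  · obtain ⟨c, hc, hcb⟩ := hz3 (Sum.inl (t, d))
    refine ⟨c, hc, fun h hh P hP hPd hPh => ?_⟩
    have h5 := hcb h hh (fun i => P.coeff (num t d i : Fin t →₀ ℕ)) (by
      intro h0
      apply hP
      rw [← MvPolynomial.support_eq_empty, Finset.eq_empty_iff_forall_notMem]
      intro α hα
      have h6 := congrFun h0 ((num t d).symm ⟨α, support_sub hPd hα⟩)
      simp only [Equiv.apply_symm_apply, Pi.zero_apply] at h6
      exact MvPolynomial.mem_support_iff.1 hα h6) (fun i => hPh _)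
    rw [hzy1] at h5
    have h7 := eval_mono hPd (fun i : Fin t => y i)
    have h8 : ‖∑ i, ((P.coeff (num t d i : Fin t →₀ ℕ) : ℤ) : ℂ) * mono t d i (rp fun i : Fin t => y i)‖ =
        |MvPolynomial.aeval (fun i : Fin t => y i) P| := by
      rw [h7, Complex.norm_real, Real.norm_eq_abs]
    rw [← h8]
    exact h5
  · obtain ⟨c, hc, hcb⟩ := hz3 (Sum.inr n)
    refine ⟨c, hc, fun h hh v hv hvh => ?_⟩
    have h5 := hcb h hh v hv hvh
    rw [hzy2] at h5
    exact h5

end Pool.Agent.H608.Me
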