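import Pool.Agent.H608.Me.Nondeg
import Pool.Agent.H608.Me.Rolle

/-!
# One step: few choices make a derivative small
-/

set_option autoImplicit false

namespace Pool.Agent.H608.Me

open Set Filter Topology Metric

variable {V : Type*} [NormedAddCommGroup V] [NormedSpace ℂ V]

/-- finitely many lists of the same length suffice on a compact set -/
theorem exists_unif {g : ℂ → V} {ρ : ℝ} {U K : Set V} {F : V → ℂ} (hρ : 0 < ρ) (g0 : g 0 = 0)
    (hg : AnalyticOnNhd ℂ g (ball 0 ρ)) (hF : AnalyticOnNhd ℂ F U) (hK : IsCompact K) (hKU : K ⊆ U)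
    (hnd : ∀ p ∈ K, ∃ κ, Lk g κ F p ≠ 0) :
    ∃ (N : ℕ) (T : Finset (List ℕ)) (c : ℝ), (∀ κ ∈ T, κ.length = N) ∧ 0 < c ∧ ∀ p ∈ K, ∃ κ ∈ T, c ≤ ‖Lk g κ F p‖ := by
  classical
  choose! κ hκ using hnd
  have hnh : ∀ p ∈ K, {q | ‖Lk g (κ p) F p‖ / 2 < ‖Lk g (κ p) F q‖} ∈ 𝓝 p := by
    intro p hp
    have h1 : ContinuousAt (fun q => ‖Lk g (κ p) F q‖) p :=
      ((Lk_analytic hρ g0 hg hF (κ p)) p (hKU hp)).continuousAt.norm
    apply h1.eventually_mem
    apply Ioi_mem_nhds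
    have := norm_pos_iff.2 (hκ p hp)
    linarith
  obtain ⟨s, hsK, hs⟩ := hK.elim_nhds_subcover _ hnh
  rcases s.eq_empty_or_nonempty with h0 | h0
  · refine ⟨0, ∅, 1, by simp, one_pos, fun p hp => ?_⟩
    have := hs hp
    rw [h0] at this
    simp at this
  obtain ⟨N, hN⟩ : ∃ N, N = s.sup fun p => (κ p).length := ⟨_, rfl⟩
  obtain ⟨pad, hpad⟩ : ∃ pad : V → List ℕ, pad = fun p => List.replicate (N - (κ p).length) 0 ++ κ p := ⟨_, rfl⟩
  have hle : ∀ p ∈ s, (κ p).length ≤ N := fun p hp => by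
    rw [hN]
    exact Finset.le_sup (f := fun p => (κ p).length) hp
  refine ⟨N, s.image pad, s.inf' h0 fun p => ‖Lk g (κ p) F p‖ / 2, ?_, ?_, ?_⟩
  · intro l hl
    obtain ⟨p, hp, rfl⟩ := Finset.mem_image.1 hl
    rw [hpad]
    simp only [List.length_append, List.length_replicate]
    have := hle p hp
    omega
  · rw [Finset.lt_inf'_iff]
    intro p hp
    have := norm_pos_iff.2 (hκ p (hsK p hp))
    linarith
  · intro q hq
    obtain ⟨p, hp, hpq⟩ := mem_iUnion₂.1 (hs hq)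
    refine ⟨pad p, Finset.mem_image_of_mem _ hp, ?_⟩
    rw [hpad]
    simp only
    rw [Lk_pad g0]
    exact (Finset.inf'_le _ hp).trans (le_of_lt hpq)

/-- one step -/
theorem step {g : ℂ → V} {ρ δ : ℝ} {U K : Set V} {G : V → ℂ}
    (hg : AnalyticOnNhd ℂ g (ball 0 ρ)) (hG : AnalyticOnNhd ℂ G U) (hK : IsCompact K)
    (hδ : 0 < δ) (hKδ : ∀ p ∈ K, ∀ u ∈ closedBall (0 : ℂ) δ, (p, u) ∈ dom g ρ U) (m : ℕ) :
    ∃ D : ℝ, 1 ≤ D ∧ ∀ p ∈ K, ∀ (H : ℕ) (q : ℝ), 0 < q → q ≤ 1 → D ≤ q * H → q ≤ ‖Lo g m G p‖ →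
      ∀ S : Finset ℕ, (∀ k ∈ S, H ≤ k ∧ k < 2 * H ∧ D * (H : ℝ) ^ (2 * m) * ‖G (p - g (1 / (k : ℂ)))‖ < q) →
      S.card ≤ m := by
  obtain ⟨Ψ, hΨ⟩ : ∃ Ψ, Ψ = alo g G := ⟨_, rfl⟩
  have hΨa : AnalyticOnNhd ℂ Ψ (dom g ρ U) := by
    rw [hΨ]
    exact alo_analytic hg hG
  have hcomp : IsCompact (K ×ˢ closedBall (0 : ℂ) δ) := hK.prod (isCompact_closedBall _ _)
  obtain ⟨M, hM⟩ := hcomp.exists_bound_of_continuousOn (f := Du^[m + 1] Ψ)
    ((iter_analytic hΨa (m + 1)).continuousOn.mono fun p hp => hKδ p.1 hp.1 p.2 hp.2)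
  have hfac : (0 : ℝ) ≤ 2 * 4 ^ m * (m + 1).factorial := by positivity
  refine ⟨2 * |M| + 1 / δ + 2 * 4 ^ m * (m + 1).factorial + 1, by
    have h1 : 0 < 1 / δ := by positivity
    have h2 := abs_nonneg M
    linarith, fun p hp H q hq hq1 hD hqm S hS => ?_⟩
  obtain ⟨D, hDd⟩ : ∃ D, D = 2 * |M| + 1 / δ + 2 * 4 ^ m * (m + 1).factorial + 1 := ⟨_, rfl⟩
  rw [← hDd] at hD hS
  have hMnn := abs_nonneg M
  have hδi : 0 < 1 / δ := by positivity
  have hD0 : 0 < D := by rw [hDd]; linarith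
  by_contra hcon
  push Not at hcon
  obtain ⟨S', hS', hcard⟩ := Finset.exists_subset_card_eq (show m + 1 ≤ S.card by omega)
  have hH0 : (0 : ℝ) < H := by
    by_contra h0
    push Not at h0
    have : q * H ≤ 0 := mul_nonpos_of_nonneg_of_nonpos hq.le h0
    linarith
  have hHD : D ≤ H := hD.trans (mul_le_of_le_one_left hH0.le hq1)
  have hHδ : 1 / (H : ℝ) ≤ δ := by
    rw [div_le_iff₀ hH0]
    have h1 : 1 / δ ≤ H := by
      refine le_trans ?_ hHD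
      rw [hDd]
      linarith
    rw [div_le_iff₀ hδ] at h1
    linarith
  -- the rotation
  obtain ⟨θ, hθ, hθm⟩ : ∃ θ : ℂ, ‖θ‖ = 1 ∧ (θ * Lo g m G p).re = ‖Lo g m G p‖ := by
    have h1 : 0 < ‖Lo g m G p‖ := hq.trans_le hqm
    refine ⟨(starRingEnd ℂ) (Lo g m G p) / ‖Lo g m G p‖, ?_, ?_⟩
    · rw [norm_div, RCLike.norm_conj, Complex.norm_real, norm_norm, div_self h1.ne']
    · rw [div_mul_eq_mul_div, ← Complex.normSq_eq_conj_mul_self, Complex.normSq_eq_norm_sq]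
      rw [← Complex.ofReal_div, Complex.ofReal_re]
      field_simp
  obtain ⟨f, hf⟩ : ∃ f : ℕ → ℝ → ℝ, f = fun (l : ℕ) (u : ℝ) => (θ * (Du^[l] Ψ) (p, (u : ℂ))).re := ⟨_, rfl⟩
  have hmem : ∀ u ∈ Icc (0 : ℝ) (1 / H), (u : ℂ) ∈ closedBall (0 : ℂ) δ := by
    intro u hu
    rw [mem_closedBall_zero_iff, Complex.norm_real, Real.norm_of_nonneg hu.1]
    exact hu.2.trans hHδ
  have hder : ∀ l, ∀ u ∈ Icc (0 : ℝ) (1 / H), HasDerivAt (f l) (f (l + 1) u) u := by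
    intro l u hu
    have h1 := slice_deriv (iter_analytic hΨa l) (hKδ p hp _ (hmem u hu))
    rw [← Function.iterate_succ_apply' (f := (Du : (V × ℂ → ℂ) → V × ℂ → ℂ))] at h1
    have h2 := h1.comp_ofReal
    have h3 := (h2.const_mul θ)
    have h4 := Complex.reCLM.hasFDerivAt.comp_hasDerivAt u h3
    rw [hf]
    exact h4
  have hbd : ∀ u ∈ Icc (0 : ℝ) (1 / H), |f (m + 1) u| ≤ |M| := by
    intro u hu
    have h1 := hM (p, (u : ℂ)) ⟨hp, hmem u hu⟩
    rw [hf]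
    simp only
    refine (Complex.abs_re_le_norm _).trans ?_
    rw [norm_mul, hθ, one_mul]
    exact h1.trans (le_abs_self M)
  have h00 : (0 : ℝ) ∈ Icc (0 : ℝ) (1 / H) := ⟨le_rfl, by positivity⟩
  have hlow : ∀ u ∈ Icc (0 : ℝ) (1 / H), q / 2 ≤ |f m u| := by
    intro u hu
    have h1 := (convex_Icc (0 : ℝ) (1 / H)).norm_image_sub_le_of_norm_hasDerivWithin_le
      (fun v hv => (hder m v hv).hasDerivWithinAt) (fun v hv => by
        rw [Real.norm_eq_abs]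
        exact hbd v hv) h00 hu
    rw [Real.norm_eq_abs, Real.norm_eq_abs, sub_zero, abs_of_nonneg hu.1] at h1
    have h2 : f m 0 = ‖Lo g m G p‖ := by
      rw [hf]
      simp only
      rw [Complex.ofReal_zero, hΨ]
      exact hθm
    have h3 : |M| * u ≤ q / 2 := by
      have h4 : |M| * u ≤ |M| * (1 / H) := mul_le_mul_of_nonneg_left hu.2 hMnn
      have h5 : |M| * (1 / H) ≤ q / 2 := by
        rw [mul_one_div, div_le_iff₀ hH0]
        have : 2 * |M| ≤ D := by rw [hDd]; linarith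
        linarith
      exact h4.trans h5
    have h6 := abs_sub_abs_le_abs_sub (f m 0) (f m u)
    rw [abs_sub_comm] at h6
    have h7 : |f m 0| = ‖Lo g m G p‖ := by rw [h2, abs_norm]
    rw [h7] at h6
    linarith
  -- the points
  obtain ⟨e, he⟩ : ∃ e, e = S'.orderEmbOfFin hcard := ⟨_, rfl⟩
  have heS : ∀ i, e i ∈ S := fun i => by
    rw [he]
    exact hS' (S'.orderEmbOfFin_mem hcard i)
  have heH : ∀ i, H ≤ e i ∧ e i < 2 * H := fun i => ⟨(hS _ (heS i)).1, (hS _ (heS i)).2.1⟩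
  have hepos : ∀ i, (0 : ℝ) < e i := fun i => hH0.trans_le (by exact_mod_cast (heH i).1)
  obtain ⟨t, ht⟩ : ∃ t : Fin (m + 1) → ℝ, t = fun i => 1 / (e (Fin.rev i) : ℝ) := ⟨_, rfl⟩
  have hmono : StrictMono t := by
    intro i j hij
    rw [ht]
    simp only
    apply one_div_lt_one_div_of_lt (hepos _)
    have : e (Fin.rev j) < e (Fin.rev i) := e.strictMono (Fin.rev_lt_rev.2 hij)
    exact_mod_cast this
  have htI : ∀ i, t i ∈ Icc (0 : ℝ) (1 / H) := by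
    intro i
    rw [ht]
    refine ⟨by have := hepos (Fin.rev i); positivity, ?_⟩
    apply one_div_le_one_div_of_le hH0
    exact_mod_cast (heH _).1
  have hsep : ∀ i j, i ≠ j → 1 / (4 * (H : ℝ) ^ 2) ≤ |t i - t j| := by
    intro i j hij
    have hne : e (Fin.rev i) ≠ e (Fin.rev j) := fun h => hij (Fin.rev_injective (e.injective h))
    have h1 := hepos (Fin.rev i)
    have h2 := hepos (Fin.rev j)
    have h3 : t i - t j = ((e (Fin.rev j) : ℝ) - e (Fin.rev i)) / (e (Fin.rev i) * e (Fin.rev j)) := by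
      rw [ht]
      field_simp
    rw [h3, abs_div, abs_of_pos (mul_pos h1 h2), div_le_div_iff₀ (by positivity) (mul_pos h1 h2)]
    have h4 : (1 : ℝ) ≤ |(e (Fin.rev j) : ℝ) - e (Fin.rev i)| := by
      have h5 : ((e (Fin.rev j) : ℤ) - e (Fin.rev i)) ≠ 0 := by
        intro h
        apply hne
        omega
      have h6 := Int.one_le_abs h5
      exact_mod_cast h6
    have h7 : (e (Fin.rev i) : ℝ) ≤ 2 * H := by exact_mod_cast (heH (Fin.rev i)).2.le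
    have h8 : (e (Fin.rev j) : ℝ) ≤ 2 * H := by exact_mod_cast (heH (Fin.rev j)).2.le
    have h9 : (e (Fin.rev i) : ℝ) * e (Fin.rev j) ≤ (2 * H) * (2 * H) := mul_le_mul h7 h8 h2.le (by positivity)
    nlinarith [mul_le_mul_of_nonneg_right h4 (show (0 : ℝ) ≤ 4 * (H : ℝ) ^ 2 by positivity)]
  obtain ⟨i, hi⟩ := exists_large (fun l _ u hu => hder l u hu) hlow (by positivity) hmono htI hsep
  have hb := (hS _ (heS (Fin.rev i))).2.2
  have h1 : |f 0 (t i)| ≤ ‖G (p - g (1 / (e (Fin.rev i) : ℂ)))‖ := by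
    rw [hf, hΨ, ht]
    simp only
    refine (Complex.abs_re_le_norm _).trans ?_
    rw [norm_mul, hθ, one_mul, Function.iterate_zero_apply]
    unfold alo
    push_cast
    exact le_rfl
  have h2 : (q / 2) * (1 / (4 * (H : ℝ) ^ 2)) ^ m ≤ (m + 1).factorial * ‖G (p - g (1 / (e (Fin.rev i) : ℂ)))‖ :=
    hi.trans (mul_le_mul_of_nonneg_left h1 (by positivity))
  have h3 : (q / 2) * (1 / (4 * (H : ℝ) ^ 2)) ^ m * (2 * 4 ^ m * (H : ℝ) ^ (2 * m)) = q := by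
    rw [one_div, inv_pow, mul_pow, ← pow_mul]
    field_simp
  have h4 : q ≤ (m + 1).factorial * ‖G (p - g (1 / (e (Fin.rev i) : ℂ)))‖ * (2 * 4 ^ m * (H : ℝ) ^ (2 * m)) := by
    rw [← h3]
    exact mul_le_mul_of_nonneg_right h2 (by positivity)
  have h5 : (2 * 4 ^ m * (m + 1).factorial : ℝ) ≤ D := by rw [hDd]; linarith
  have h6 : (2 * 4 ^ m * (m + 1).factorial : ℝ) * ((H : ℝ) ^ (2 * m) * ‖G (p - g (1 / (e (Fin.rev i) : ℂ)))‖) ≤
      D * ((H : ℝ) ^ (2 * m) * ‖G (p - g (1 / (e (Fin.rev i) : ℂ)))‖) :=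
    mul_le_mul_of_nonneg_right h5 (by positivity)
  nlinarith

end Pool.Agent.H608.Me
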